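import Mathlib

set_option autoImplicit false

open Set Filter Topology MeasureTheory

namespace Pool.Agent.R266.BE

/-- Parameters: a non integer base above 2. -/
structure Par where
  β : ℝ
  m : ℕ
  two_lt : 2 < β
  m_lt : (m : ℝ) < β
  lt_m : β < m + 1

namespace Par

variable (P : Par)

noncomputable def α : ℝ := (P.m + 1 - P.β) / 2

noncomputable def lo : ℝ := P.α / (P.β - 1)

noncomputable def S (y : ℝ) : ℝ := Int.fract (P.β * y + P.α)

lemma α_pos : 0 < P.α := by unfold α; linarith [P.lt_m]
lemma α_lt : P.α < 1 / 2 := by unfold α; linarith [P.m_lt]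
lemma two_α : 2 * P.α = P.m + 1 - P.β := by unfold α; ring
lemma β_pos : 0 < P.β := by linarith [P.two_lt]
lemma β1_pos : 0 < P.β - 1 := by linarith [P.two_lt]
lemma lo_pos : 0 < P.lo := div_pos P.α_pos P.β1_pos
lemma lo_mul : (P.β - 1) * P.lo = P.α := by
  unfold lo; field_simp [P.β1_pos.ne']

lemma S_nonneg (y : ℝ) : 0 ≤ P.S y := Int.fract_nonneg _
lemma S_lt_one (y : ℝ) : P.S y < 1 := Int.fract_lt_one _

lemma measurable_S : Measurable P.S := by
  unfold S
  exact measurable_fract.comp ((measurable_const.mul measurable_id).add measurable_const)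

end Par

/-- periodic primitive -/
noncomputable def F (g : ℝ → ℝ) (u : ℝ) : ℝ := ∫ s in (0 : ℝ)..u, g (Int.fract s)

section Prim

variable {g : ℝ → ℝ} (hg : Measurable g) {C : ℝ} (hC : ∀ x, |g x| ≤ C)

include hg hC

lemma ii_fract (a b : ℝ) : IntervalIntegrable (fun s => g (Int.fract s)) volume a b := by
  rw [intervalIntegrable_iff]
  refine Measure.integrableOn_of_bounded (M := C) (by simp) ?_ ?_
  · exact (hg.comp measurable_fract).aestronglyMeasurable
  · exact Eventually.of_forall fun x => by simpa using hC _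

lemma ii_g (a b : ℝ) : IntervalIntegrable g volume a b := by
  rw [intervalIntegrable_iff]
  refine Measure.integrableOn_of_bounded (M := C) (by simp) ?_ ?_
  · exact hg.aestronglyMeasurable
  · exact Eventually.of_forall fun x => by simpa using hC _

lemma F_add_one (u : ℝ) : F g (u + 1) = F g u + F g 1 := by
  unfold F
  rw [← intervalIntegral.integral_add_adjacent_intervals (ii_fract hg hC 0 1)
    (ii_fract hg hC 1 (u + 1))]
  have h : ∫ s in (1 : ℝ)..(u + 1), g (Int.fract s) = ∫ s in (0 : ℝ)..u, g (Int.fract s) := by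
    have := intervalIntegral.integral_comp_add_right (a := 0) (b := u)
      (fun s => g (Int.fract s)) 1
    simp only [Int.fract_add_one, zero_add] at this
    exact this.symm
  rw [h]; ring

lemma F_add_nat (u : ℝ) (n : ℕ) : F g (u + n) = F g u + n * F g 1 := by
  induction n with
  | zero => simp
  | succ n ih =>
    push_cast
    rw [← add_assoc, F_add_one hg hC, ih]; ring

lemma F_sub_nat (u : ℝ) (n : ℕ) : F g (u - n) = F g u - n * F g 1 := by
  have := F_add_nat hg hC (u - n) n
  rw [sub_add_cancel] at this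
  linarith

lemma F_unit {t : ℝ} (h0 : 0 ≤ t) (h1 : t ≤ 1) : F g t = ∫ s in (0 : ℝ)..t, g s := by
  unfold F
  refine intervalIntegral.integral_congr_ae ?_
  have : ∀ᵐ x : ℝ ∂volume, x ≠ 1 := compl_mem_ae_iff.mpr (measure_singleton (1 : ℝ))
  filter_upwards [this] with x hx hxt
  rw [uIoc_of_le h0] at hxt
  have : Int.fract x = x := Int.fract_eq_self.2 ⟨hxt.1.le, lt_of_le_of_ne (hxt.2.trans h1) hx⟩
  rw [this]

lemma int_comp_S (P : Par) (t : ℝ) :
    ∫ y in (0 : ℝ)..t, g (P.S y) = P.β⁻¹ * (F g (P.β * t + P.α) - F g P.α) := by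
  have h := intervalIntegral.integral_comp_mul_add (a := 0) (b := t)
    (fun s => g (Int.fract s)) P.β_pos.ne' P.α
  unfold Par.S
  rw [h, smul_eq_mul]
  unfold F
  rw [intervalIntegral.integral_interval_sub_left (ii_fract hg hC _ _) (ii_fract hg hC _ _)]
  simp

end Prim

end Pool.Agent.R266.BE
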