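import Pool.Agent.R266.BE.A

set_option autoImplicit false

open Set Filter Topology MeasureTheory

namespace Pool.Agent.R266.BE

namespace Par

variable (P : Par)

/-- orbit of 0 -/
noncomputable def a : ℕ → ℝ
  | 0 => 0
  | n + 1 => P.S (a n)

lemma a_nonneg (n : ℕ) : 0 ≤ P.a n := by
  cases n with
  | zero => simp [a]
  | succ n => exact P.S_nonneg _

lemma a_lt_one (n : ℕ) : P.a n < 1 := by
  cases n with
  | zero => simp [a]
  | succ n => exact P.S_lt_one _

/-- digit of the orbit of 0 -/
noncomputable def k (n : ℕ) : ℕ := ⌊P.β * P.a n + P.α⌋₊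

lemma k_eq (n : ℕ) : P.β * P.a n + P.α = P.k n + P.a (n + 1) := by
  have h : 0 ≤ P.β * P.a n + P.α := by
    have := mul_nonneg P.β_pos.le (P.a_nonneg n)
    linarith [P.α_pos]
  have h1 : P.a (n + 1) = Int.fract (P.β * P.a n + P.α) := rfl
  have h2 := Int.self_sub_floor (P.β * P.a n + P.α)
  have h3 : ((⌊P.β * P.a n + P.α⌋ : ℤ) : ℝ) = (P.k n : ℝ) := by
    unfold k
    rw [← Int.natCast_floor_eq_floor h]
    simp
  rw [h1, ← h2, h3]; ring

noncomputable def q : ℝ := P.β⁻¹

lemma q_pos : 0 < P.q := inv_pos.2 P.β_pos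
lemma q_lt_half : P.q < 1 / 2 := by
  unfold q
  rw [inv_lt_comm₀ P.β_pos (by norm_num)]
  norm_num
  exact P.two_lt
lemma q_lt_one : P.q < 1 := by linarith [P.q_lt_half]
lemma q_mul : P.q * P.β = 1 := inv_mul_cancel₀ P.β_pos.ne'

lemma summable_q : Summable (fun n : ℕ => P.q ^ n) :=
  summable_geometric_of_lt_one P.q_pos.le P.q_lt_one

lemma summable_of_bdd {f : ℕ → ℝ} {C : ℝ} (h : ∀ n, |f n| ≤ C) :
    Summable (fun n : ℕ => P.q ^ n * f n) := by
  refine Summable.of_norm_bounded (g := fun n : ℕ => P.q ^ n * C) (P.summable_q.mul_right _) ?_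
  intro n
  rw [Real.norm_eq_abs, abs_mul, abs_of_nonneg (pow_nonneg P.q_pos.le n)]
  exact mul_le_mul_of_nonneg_left (h n) (pow_nonneg P.q_pos.le n)

/-- step functions -/
noncomputable def st (n : ℕ) (y : ℝ) : ℝ :=
  (if y < 1 - P.a n then 1 else 0) - (if y < P.a n then 1 else 0)

lemma st_abs (n : ℕ) (y : ℝ) : |P.st n y| ≤ 1 := by
  unfold st
  split_ifs <;> norm_num

lemma st_zero {y : ℝ} (h0 : 0 ≤ y) (h1 : y < 1) : P.st 0 y = 1 := by
  unfold st a
  rw [if_pos (by linarith), if_neg (by linarith)]; norm_num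

lemma measurable_st (n : ℕ) : Measurable (P.st n) := by
  unfold st
  exact (Measurable.ite measurableSet_Iio measurable_const measurable_const).sub
    (Measurable.ite measurableSet_Iio measurable_const measurable_const)

noncomputable def h (y : ℝ) : ℝ := ∑' n, P.q ^ n * P.st n y

lemma summable_st (y : ℝ) : Summable (fun n => P.q ^ n * P.st n y) :=
  P.summable_of_bdd (fun n => P.st_abs n y)

lemma measurable_h : Measurable P.h := by
  have h1 : ∀ N, Measurable (fun y => ∑ n ∈ Finset.range N, P.q ^ n * P.st n y) := fun N =>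
    Finset.measurable_sum _ fun n _ => measurable_const.mul (P.measurable_st n)
  refine measurable_of_tendsto_metrizable h1 ?_
  rw [tendsto_pi_nhds]
  intro y
  exact (P.summable_st y).hasSum.tendsto_sum_nat

lemma h_abs (y : ℝ) : |P.h y| ≤ 2 := by
  have h1 := (P.summable_st y).hasSum
  have h2 : |P.h y| ≤ ∑' n, P.q ^ n := by
    have := tsum_of_norm_bounded (f := fun n => P.q ^ n * P.st n y) P.summable_q.hasSum
      (fun n => by
        rw [Real.norm_eq_abs, abs_mul, abs_of_nonneg (pow_nonneg P.q_pos.le n)]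
        have := mul_le_mul_of_nonneg_left (P.st_abs n y) (pow_nonneg P.q_pos.le n)
        linarith)
    exact this
  rw [tsum_geometric_of_lt_one P.q_pos.le P.q_lt_one] at h2
  refine h2.trans ?_
  rw [inv_le_comm₀ (by linarith [P.q_lt_one]) (by norm_num)]
  linarith [P.q_lt_half]

/-- lower bound of the density -/
noncomputable def c0 : ℝ := (1 - 2 * P.q) / (1 - P.q)

lemma c0_pos : 0 < P.c0 := div_pos (by linarith [P.q_lt_half]) (by linarith [P.q_lt_one])

lemma c0_le {y : ℝ} (h0 : 0 ≤ y) (h1 : y < 1) : P.c0 ≤ P.h y := by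
  have hs := P.summable_st y
  have h2 : P.h y = P.q ^ 0 * P.st 0 y + ∑' n, P.q ^ (n + 1) * P.st (n + 1) y := by
    unfold h
    exact hs.tsum_eq_zero_add
  have h3 : |∑' n, P.q ^ (n + 1) * P.st (n + 1) y| ≤ ∑' n : ℕ, P.q ^ (n + 1) := by
    have hs1 : Summable (fun n : ℕ => P.q ^ (n + 1)) := (summable_nat_add_iff 1).2 P.summable_q
    exact tsum_of_norm_bounded (f := fun n => P.q ^ (n + 1) * P.st (n + 1) y) hs1.hasSum
      (fun n => by
        rw [Real.norm_eq_abs, abs_mul, abs_of_nonneg (pow_nonneg P.q_pos.le _)]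
        have := mul_le_mul_of_nonneg_left (P.st_abs (n + 1) y) (pow_nonneg P.q_pos.le (n + 1))
        linarith)
  have h4 : ∑' n : ℕ, P.q ^ (n + 1) = P.q / (1 - P.q) := by
    have := tsum_geometric_of_lt_one P.q_pos.le P.q_lt_one
    have h5 : ∀ n : ℕ, P.q ^ (n + 1) = P.q * P.q ^ n := fun n => by ring
    simp_rw [h5]
    rw [tsum_mul_left, this]; rfl
  rw [h4] at h3
  have h6 := neg_abs_le (∑' n, P.q ^ (n + 1) * P.st (n + 1) y)
  rw [h2, P.st_zero h0 h1]
  have h7 : P.c0 = 1 - P.q / (1 - P.q) := by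
    unfold c0
    have : 1 - P.q ≠ 0 := by linarith [P.q_lt_one]
    field_simp; ring
  rw [h7, pow_zero, one_mul]
  linarith

end Par

section M

variable (P : Par) {g : ℝ → ℝ} (hg : Measurable g) {C : ℝ} (hC : ∀ x, |g x| ≤ C)

/-- term of the expansion of the invariant functional -/
noncomputable def tm (g : ℝ → ℝ) (n : ℕ) : ℝ :=
  (∫ s in (0 : ℝ)..(1 - P.a n), g s) - ∫ s in (0 : ℝ)..(P.a n), g s

include hg hC

lemma int_st (n : ℕ) : ∫ s in (0 : ℝ)..1, g s * P.st n s = tm P g n := by
  have ha0 := P.a_nonneg n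
  have ha1 := P.a_lt_one n
  have key : ∀ t : ℝ, 0 ≤ t → t ≤ 1 →
      ∫ s in (0 : ℝ)..1, g s * (if s < t then 1 else 0) = ∫ s in (0 : ℝ)..t, g s := by
    intro t h0 h1
    have e : (fun s => g s * (if s < t then (1 : ℝ) else 0)) = (Iio t).indicator g := by
      funext s
      by_cases h : s < t <;> simp [h]
    rw [e, intervalIntegral.integral_of_le zero_le_one, intervalIntegral.integral_of_le h0,
      setIntegral_indicator measurableSet_Iio]
    refine setIntegral_congr_set ?_
    have h2 : (Ioc (0 : ℝ) 1 ∩ Iio t : Set ℝ) =ᵐ[volume] (Ioc (0 : ℝ) 1 ∩ Iic t : Set ℝ) :=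
      EventuallyEq.inter (ae_eq_refl _) Iio_ae_eq_Iic
    have h3 : Ioc (0 : ℝ) 1 ∩ Iic t = Ioc 0 t := by
      rw [Ioc_inter_Iic, min_eq_right h1]
    rw [← h3]; exact h2
  unfold Par.st tm
  rw [← key (1 - P.a n) (by linarith) (by linarith), ← key (P.a n) ha0 ha1.le]
  rw [← intervalIntegral.integral_sub]
  · refine intervalIntegral.integral_congr fun s _ => ?_
    ring
  · refine (intervalIntegrable_iff.2 (Measure.integrableOn_of_bounded (M := C) (by simp) ?_ ?_))
    · exact (hg.mul (Measurable.ite measurableSet_Iio measurable_const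
        measurable_const)).aestronglyMeasurable
    · refine Eventually.of_forall fun x => ?_
      have := hC x
      have h0 := (abs_nonneg _).trans this
      split_ifs <;> simp [h0, this]
  · refine (intervalIntegrable_iff.2 (Measure.integrableOn_of_bounded (M := C) (by simp) ?_ ?_))
    · exact (hg.mul (Measurable.ite measurableSet_Iio measurable_const
        measurable_const)).aestronglyMeasurable
    · refine Eventually.of_forall fun x => ?_
      have := hC x
      have h0 := (abs_nonneg _).trans this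
      split_ifs <;> simp [h0, this]

lemma hasSum_M : HasSum (fun n => P.q ^ n * tm P g n) (∫ s in (0 : ℝ)..1, g s * P.h s) := by
  have h1 : ∀ n, P.q ^ n * tm P g n = ∫ s in (0 : ℝ)..1, P.q ^ n * (g s * P.st n s) := by
    intro n
    rw [intervalIntegral.integral_const_mul, int_st P hg hC]
  simp_rw [h1]
  refine intervalIntegral.hasSum_integral_of_dominated_convergence
    (fun n _ => P.q ^ n * C) ?_ ?_ ?_ ?_ ?_
  · intro n
    exact (measurable_const.mul (hg.mul (P.measurable_st n))).aestronglyMeasurable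
  · intro n
    refine Eventually.of_forall fun s _ => ?_
    rw [Real.norm_eq_abs, abs_mul, abs_of_nonneg (pow_nonneg P.q_pos.le n), abs_mul]
    refine mul_le_mul_of_nonneg_left ?_ (pow_nonneg P.q_pos.le n)
    have h2 := P.st_abs n s
    have h3 := hC s
    have h4 := abs_nonneg (g s)
    calc |g s| * |P.st n s| ≤ |g s| * 1 := mul_le_mul_of_nonneg_left h2 h4
      _ ≤ C := by linarith
  · exact Eventually.of_forall fun s _ => P.summable_q.mul_right _
  · exact intervalIntegrable_const
  · refine Eventually.of_forall fun s _ => ?_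
    have h2 := (P.summable_st s).hasSum.mul_left (g s)
    have h3 : (fun n => P.q ^ n * (g s * P.st n s)) = fun n => g s * (P.q ^ n * P.st n s) := by
      funext n; ring
    rw [h3]; exact h2

lemma int_g_abs {t : ℝ} (h0 : 0 ≤ t) (h1 : t ≤ 1) : |∫ s in (0 : ℝ)..t, g s| ≤ C := by
  have h2 := intervalIntegral.norm_integral_le_of_norm_le_const (a := 0) (b := t) (C := C)
    (f := g) (fun x _ => by simpa using hC x)
  rw [Real.norm_eq_abs, sub_zero, abs_of_nonneg h0] at h2
  have h3 := (abs_nonneg _).trans (hC 0)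
  calc _ ≤ C * t := h2
    _ ≤ C * 1 := mul_le_mul_of_nonneg_left h1 h3
    _ = C := mul_one C

/-- invariance of the functional -/
theorem inv_M : ∫ s in (0 : ℝ)..1, g (P.S s) * P.h s = ∫ s in (0 : ℝ)..1, g s * P.h s := by
  have hgS : Measurable (fun s => g (P.S s)) := hg.comp P.measurable_S
  have hCS : ∀ x, |g (P.S x)| ≤ C := fun x => hC _
  have A := hasSum_M P hg hC
  have B := hasSum_M P hgS hCS
  -- shifted sum
  have A1 : HasSum (fun n => P.q ^ (n + 1) * tm P g (n + 1))
      ((∫ s in (0 : ℝ)..1, g s * P.h s) - P.q ^ 0 * tm P g 0) := by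
    have := (hasSum_nat_add_iff' (f := fun n => P.q ^ n * tm P g n) 1).2 A
    simpa using this
  -- the constant sum
  have hsa : Summable (fun n => P.q ^ n * P.a n) := P.summable_of_bdd (C := 1) fun n => by
    rw [abs_of_nonneg (P.a_nonneg n)]; exact (P.a_lt_one n).le
  have T := hsa.hasSum
  have T1 : HasSum (fun n => P.q ^ (n + 1) * P.a (n + 1)) (∑' n, P.q ^ n * P.a n) := by
    have := (hasSum_nat_add_iff' (f := fun n => P.q ^ n * P.a n) 1).2 T
    simpa [Par.a] using this
  have G : HasSum (fun n : ℕ => P.q ^ (n + 1) * (P.m - 2 * P.α)) 1 := by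
    have h1 := (hasSum_geometric_of_lt_one P.q_pos.le P.q_lt_one).mul_left
      (P.q * (P.m - 2 * P.α))
    have h2 : P.q * (P.m - 2 * P.α) * (1 - P.q)⁻¹ = 1 := by
      rw [P.two_α]
      have h3 : (1 - P.q) ≠ 0 := by linarith [P.q_lt_one]
      have h4 := P.q_mul
      field_simp
      nlinarith [h4]
    rw [h2] at h1
    have h5 : (fun n : ℕ => P.q ^ (n + 1) * (P.m - 2 * P.α))
        = fun n => P.q * (P.m - 2 * P.α) * P.q ^ n := by
      funext n; ring
    rw [h5]; exact h1
  have K : HasSum (fun n : ℕ => P.q ^ (n + 1) * ((P.m : ℝ) - 2 * P.k n)) 1 := by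
    have h1 := (G.sub (T.mul_left 2)).add (T1.mul_left 2)
    have h2 : (fun n : ℕ => P.q ^ (n + 1) * ((P.m : ℝ) - 2 * P.k n))
        = fun n => P.q ^ (n + 1) * (P.m - 2 * P.α) - 2 * (P.q ^ n * P.a n)
          + 2 * (P.q ^ (n + 1) * P.a (n + 1)) := by
      funext n
      have h3 := P.k_eq n
      have h4 : (P.k n : ℝ) = P.β * P.a n + P.α - P.a (n + 1) := by linarith
      rw [h4]
      have h5 : P.q ^ (n + 1) * (P.β * P.a n) = P.q ^ n * P.a n := by
        rw [pow_succ]
        calc P.q ^ n * P.q * (P.β * P.a n) = P.q ^ n * (P.q * P.β) * P.a n := by ring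
          _ = _ := by rw [P.q_mul]; ring
      linear_combination (-2) * h5
    rw [h2]
    simpa using h1
  have hterm : ∀ n, P.q ^ n * tm P (fun s => g (P.S s)) n
      = P.q ^ (n + 1) * ((P.m : ℝ) - 2 * P.k n) * F g 1
        + P.q ^ (n + 1) * tm P g (n + 1) := by
    intro n
    have ha0 := P.a_nonneg (n + 1)
    have ha1 := P.a_lt_one (n + 1)
    unfold tm
    rw [int_comp_S hg hC, int_comp_S hg hC, P.k_eq n]
    have h1 : P.β * (1 - P.a n) + P.α = (1 - P.a (n + 1)) + P.m - P.k n := by
      have := P.k_eq n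
      have h2 := P.two_α
      linarith
    rw [h1, F_sub_nat hg hC, F_add_nat hg hC, add_comm (P.k n : ℝ), F_add_nat hg hC,
      F_unit hg hC (by linarith) (by linarith), F_unit hg hC ha0 ha1.le]
    have h3 : P.q = P.β⁻¹ := rfl
    rw [← h3, pow_succ]
    ring
  have D : HasSum (fun n => P.q ^ n * tm P (fun s => g (P.S s)) n)
      (1 * F g 1 + ((∫ s in (0 : ℝ)..1, g s * P.h s) - P.q ^ 0 * tm P g 0)) := by
    simp_rw [hterm]
    exact (K.mul_right _).add A1
  have h0 : tm P g 0 = F g 1 := by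
    rw [F_unit hg hC (by norm_num) le_rfl]
    simp [tm, Par.a]
  rw [B.unique D, h0]; ring

/-- symmetry of the functional -/
theorem sym_M : ∫ s in (0 : ℝ)..1, g (1 - s) * P.h s = ∫ s in (0 : ℝ)..1, g s * P.h s := by
  have hgS : Measurable (fun s => g (1 - s)) := hg.comp (measurable_const.sub measurable_id)
  have hCS : ∀ x, |g (1 - x)| ≤ C := fun x => hC _
  have A := hasSum_M P hg hC
  have B := hasSum_M P hgS hCS
  have e : ∀ n, tm P (fun s => g (1 - s)) n = tm P g n := by
    intro n
    unfold tm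
    rw [intervalIntegral.integral_comp_sub_left (fun s => g s),
      intervalIntegral.integral_comp_sub_left (fun s => g s)]
    have h1 := intervalIntegral.integral_add_adjacent_intervals
      (ii_g hg hC 0 (P.a n)) (ii_g hg hC (P.a n) 1)
    have h2 := intervalIntegral.integral_add_adjacent_intervals
      (ii_g hg hC 0 (1 - P.a n)) (ii_g hg hC (1 - P.a n) 1)
    simp only [sub_zero, sub_sub_cancel]
    linarith
  simp_rw [e] at B
  exact B.unique A

end M

end Pool.Agent.R266.BE
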