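import Pool.Agent.R266.BE.B
import Pool.Agent.H165R3.Birk

set_option autoImplicit false

open Set Filter Topology MeasureTheory

namespace Pool.Agent.R266.BE

namespace Par

variable (P : Par)

noncomputable def lam : Measure ℝ := volume.restrict (Ico (0 : ℝ) 1)

noncomputable def Z : ℝ := ∫ s in (0 : ℝ)..1, P.h s

lemma ii_h : IntervalIntegrable P.h volume 0 1 :=
  ii_g P.measurable_h P.h_abs 0 1

lemma Z_pos : 0 < P.Z := by
  have h1 : ∫ s in (0 : ℝ)..1, P.c0 ≤ P.Z := by
    unfold Z
    refine intervalIntegral.integral_mono_on_of_le_Ioo zero_le_one intervalIntegrable_const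
      P.ii_h ?_
    intro x hx
    exact P.c0_le hx.1.le hx.2
  have h2 : ∫ s in (0 : ℝ)..1, P.c0 = P.c0 := by simp
  linarith [P.c0_pos]

noncomputable def dens (y : ℝ) : ENNReal := ENNReal.ofReal (P.h y / P.Z)

lemma measurable_dens : Measurable P.dens :=
  (P.measurable_h.div_const _).ennreal_ofReal

noncomputable def μ : Measure ℝ := (lam).withDensity P.dens

lemma int_μ {φ : ℝ → ℝ} (_hφ : Measurable φ) : ∫ x, φ x ∂P.μ = (∫ s in (0 : ℝ)..1, φ s * P.h s) / P.Z := by
  unfold μ
  rw [integral_withDensity_eq_integral_toReal_smul P.measurable_dens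
    (Eventually.of_forall fun x => ENNReal.ofReal_lt_top)]
  have h1 : ∫ x, (P.dens x).toReal • φ x ∂lam = ∫ x, (φ x * P.h x) / P.Z ∂lam := by
    refine setIntegral_congr_fun measurableSet_Ico ?_
    intro x hx
    have h2 : 0 ≤ P.h x / P.Z := div_nonneg (P.c0_pos.le.trans (P.c0_le hx.1 hx.2)) P.Z_pos.le
    simp only [dens, smul_eq_mul]
    rw [ENNReal.toReal_ofReal h2]
    ring
  rw [h1, integral_div, intervalIntegral.integral_of_le zero_le_one]
  unfold lam
  rw [integral_Ico_eq_integral_Ioo, integral_Ioc_eq_integral_Ioo]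

instance : IsFiniteMeasure (lam) := by
  unfold lam; infer_instance

lemma μ_univ : P.μ univ = 1 := by
  unfold μ
  rw [withDensity_apply _ MeasurableSet.univ, Measure.restrict_univ]
  unfold dens
  rw [← ofReal_integral_eq_lintegral_ofReal]
  · have h1 : ∫ x, P.h x / P.Z ∂lam = 1 := by
      rw [integral_div]
      have : ∫ x, P.h x ∂lam = P.Z := by
        unfold lam Z
        rw [intervalIntegral.integral_of_le zero_le_one,
          integral_Ico_eq_integral_Ioo, integral_Ioc_eq_integral_Ioo]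
      rw [this]
      exact div_self P.Z_pos.ne'
    rw [h1]; simp
  · refine Integrable.div_const ?_ _
    unfold lam
    refine Measure.integrableOn_of_bounded (M := 2) (by simp) P.measurable_h.aestronglyMeasurable ?_
    exact Eventually.of_forall fun x => by simpa using P.h_abs x
  · unfold lam
    refine (ae_restrict_iff' measurableSet_Ico).2 (Eventually.of_forall fun x hx => ?_)
    exact div_nonneg (P.c0_pos.le.trans (P.c0_le hx.1 hx.2)) P.Z_pos.le

instance : IsProbabilityMeasure P.μ := ⟨P.μ_univ⟩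

lemma toReal_μ {A : Set ℝ} (hA : MeasurableSet A) :
    (P.μ A).toReal = (∫ s in (0 : ℝ)..1, A.indicator 1 s * P.h s) / P.Z := by
  rw [← P.int_μ (measurable_one.indicator hA)]
  rw [integral_indicator_one hA]
  rfl

lemma ind_abs (A : Set ℝ) (x : ℝ) : |A.indicator (1 : ℝ → ℝ) x| ≤ 1 := by
  by_cases h : x ∈ A <;> simp [h]

lemma map_μ : MeasurePreserving P.S P.μ P.μ := by
  refine ⟨P.measurable_S, ?_⟩
  ext A hA
  rw [Measure.map_apply P.measurable_S hA]
  have h1 : (P.μ (P.S ⁻¹' A)).toReal = (P.μ A).toReal := by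
    rw [P.toReal_μ hA, P.toReal_μ (P.measurable_S hA)]
    congr 1
    exact inv_M P (measurable_one.indicator hA) (ind_abs A)
  exact (ENNReal.toReal_eq_toReal_iff' (measure_ne_top _ _) (measure_ne_top _ _)).1 h1

lemma lam_ac : lam ≪ P.μ := by
  unfold μ
  refine withDensity_absolutelyContinuous' P.measurable_dens.aemeasurable ?_
  unfold lam
  refine (ae_restrict_iff' measurableSet_Ico).2 (Eventually.of_forall fun x hx => ?_)
  have : 0 < P.h x / P.Z := div_pos (P.c0_pos.trans_le (P.c0_le hx.1 hx.2)) P.Z_pos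
  simp only [dens, ne_eq, ENNReal.ofReal_eq_zero, not_le]
  exact this

lemma μ_ac : P.μ ≪ lam := withDensity_absolutelyContinuous _ _

/-- the distribution function of an invariant set is linear -/
lemma lin_of_inv {A : Set ℝ} (hA : MeasurableSet A) (hinv : P.S ⁻¹' A = A) {t : ℝ}
    (h0 : 0 ≤ t) (h1 : t < 1) :
    ∫ s in (0 : ℝ)..t, A.indicator (1 : ℝ → ℝ) s
      = t * ∫ s in (0 : ℝ)..1, A.indicator (1 : ℝ → ℝ) s := by
  set g : ℝ → ℝ := A.indicator 1 with hgdef
  have hg : Measurable g := measurable_one.indicator hA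
  have hC : ∀ x, |g x| ≤ 1 := ind_abs A
  have hgS : ∀ x, g (P.S x) = g x := by
    intro x
    have : P.S x ∈ A ↔ x ∈ A := by rw [← mem_preimage, hinv]
    by_cases h : x ∈ A
    · simp [hgdef, h, this.2 h]
    · have h' : P.S x ∉ A := fun h2 => h (this.1 h2)
      simp [hgdef, h, h']
  set c := ∫ s in (0 : ℝ)..1, g s with hc
  have hF1 : F g 1 = c := F_unit hg hC zero_le_one le_rfl
  have hα0 := P.α_pos
  have hα1 := P.α_lt
  have rec1 : ∀ t, 0 ≤ t → t < 1 → (∫ s in (0 : ℝ)..t, g s) - t * c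
      = P.β⁻¹ * (((∫ s in (0 : ℝ)..(P.S t), g s) - P.S t * c)
        - ((∫ s in (0 : ℝ)..P.α, g s) - P.α * c)) := by
    intro t h0 h1
    have e1 : ∫ s in (0 : ℝ)..t, g s = ∫ s in (0 : ℝ)..t, g (P.S s) :=
      intervalIntegral.integral_congr fun x _ => (hgS x).symm
    have hnn : 0 ≤ P.β * t + P.α := by
      have := mul_nonneg P.β_pos.le h0
      linarith
    obtain ⟨N, e2⟩ : ∃ N : ℕ, P.β * t + P.α = P.S t + (N : ℝ) := by
      refine ⟨⌊P.β * t + P.α⌋₊, ?_⟩
      have h2 := Int.self_sub_floor (P.β * t + P.α)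
      have h3 : ((⌊P.β * t + P.α⌋ : ℤ) : ℝ) = (⌊P.β * t + P.α⌋₊ : ℝ) := by
        rw [← Int.natCast_floor_eq_floor hnn]
        simp
      have h4 : P.S t = Int.fract (P.β * t + P.α) := rfl
      rw [h4, ← h2, h3]; ring
    have e3 : P.β * t * c = (P.S t + (N : ℝ) - P.α) * c := by
      rw [← e2]; ring
    have hb : P.β⁻¹ * P.β = 1 := inv_mul_cancel₀ P.β_pos.ne'
    have e4 : t * c = P.β⁻¹ * (P.β * t * c) := by
      calc t * c = (P.β⁻¹ * P.β) * (t * c) := by rw [hb, one_mul]
        _ = _ := by ring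
    rw [e1, int_comp_S hg hC, e4, e3]
    rw [e2, F_add_nat hg hC, F_unit hg hC (P.S_nonneg t) (P.S_lt_one t).le,
      F_unit hg hC hα0.le (by linarith), hF1]
    ring
  have bound : ∀ n : ℕ, ∀ t, 0 ≤ t → t < 1 →
      |(∫ s in (0 : ℝ)..t, g s) - t * c| ≤ 2 * (2 * P.q) ^ n := by
    intro n
    induction n with
    | zero =>
      intro t h0 h1
      have b1 := int_g_abs hg hC h0 h1.le
      have b2 := int_g_abs hg hC zero_le_one le_rfl
      have b3 : |t * c| ≤ 1 := by
        rw [abs_mul, abs_of_nonneg h0]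
        calc t * |c| ≤ 1 * 1 := mul_le_mul h1.le b2 (abs_nonneg _) zero_le_one
          _ = 1 := by norm_num
      have := abs_sub (∫ s in (0 : ℝ)..t, g s) (t * c)
      simp only [pow_zero, mul_one]
      linarith
    | succ n ih =>
      intro t h0 h1
      rw [rec1 t h0 h1, abs_mul, abs_of_nonneg (inv_nonneg.2 P.β_pos.le)]
      have i1 := ih (P.S t) (P.S_nonneg t) (P.S_lt_one t)
      have i2 := ih P.α hα0.le (by linarith)
      have i3 := abs_sub ((∫ s in (0 : ℝ)..(P.S t), g s) - P.S t * c)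
        ((∫ s in (0 : ℝ)..P.α, g s) - P.α * c)
      have hq : P.q = P.β⁻¹ := rfl
      rw [← hq]
      calc P.q * |_| ≤ P.q * (2 * (2 * P.q) ^ n + 2 * (2 * P.q) ^ n) :=
            mul_le_mul_of_nonneg_left (by linarith) P.q_pos.le
        _ = 2 * (2 * P.q) ^ (n + 1) := by ring
  have lim : Tendsto (fun n : ℕ => 2 * (2 * P.q) ^ n) atTop (𝓝 0) := by
    have := (tendsto_pow_atTop_nhds_zero_of_lt_one (r := 2 * P.q)
      (by linarith [P.q_pos]) (by linarith [P.q_lt_half])).const_mul 2
    simpa using this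
  have := ge_of_tendsto' lim (fun n => bound n t h0 h1)
  have h3 := abs_nonpos_iff.1 this
  linarith

lemma measureReal_Ioc {A : Set ℝ} (hA : MeasurableSet A) {t : ℝ} (h0 : 0 ≤ t) :
    (volume (A ∩ Ioc 0 t)).toReal = ∫ s in (0 : ℝ)..t, A.indicator (1 : ℝ → ℝ) s := by
  rw [intervalIntegral.integral_of_le h0, integral_indicator_one hA]
  simp [Measure.real, Measure.restrict_apply hA]

lemma lam_apply {A : Set ℝ} (hA : MeasurableSet A) : lam A = volume (A ∩ Ico 0 1) :=
  Measure.restrict_apply hA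

theorem zero_one {A : Set ℝ} (hA : MeasurableSet A) (hinv : P.S ⁻¹' A = A) :
    lam A = 0 ∨ lam Aᶜ = 0 := by
  set c := ∫ s in (0 : ℝ)..1, A.indicator (1 : ℝ → ℝ) s with hc
  have hc0 : 0 ≤ c := by
    rw [hc, ← measureReal_Ioc hA zero_le_one]
    exact ENNReal.toReal_nonneg
  have key : (lam.restrict A) = ENNReal.ofReal c • lam := by
    refine Measure.ext_of_Iic _ _ fun a => ?_
    rw [Measure.restrict_apply measurableSet_Iic, Measure.smul_apply, smul_eq_mul,
      lam_apply measurableSet_Iic, lam_apply (measurableSet_Iic.inter hA)]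
    rcases lt_or_ge a 0 with ha | ha
    · have e1 : Iic a ∩ Ico (0 : ℝ) 1 = ∅ := by
        ext x; simp only [mem_inter_iff, mem_Iic, mem_Ico, mem_empty_iff_false, iff_false]
        intro h; linarith [h.1, h.2.1]
      have e2 : Iic a ∩ A ∩ Ico (0 : ℝ) 1 = ∅ := by
        rw [inter_right_comm, e1]; simp
      rw [e1, e2]; simp
    · have hfin : ∀ B : Set ℝ, volume (B ∩ Ico (0 : ℝ) 1) ≠ ⊤ := fun B =>
        ((measure_mono inter_subset_right).trans_lt (by simp)).ne
      rw [← ENNReal.toReal_eq_toReal_iff' (hfin _) (ENNReal.mul_ne_top ENNReal.ofReal_ne_top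
        (hfin _)), ENNReal.toReal_mul, ENNReal.toReal_ofReal hc0]
      rcases lt_or_ge a 1 with ha1 | ha1
      · have e1 : (Iic a ∩ Ico (0 : ℝ) 1 : Set ℝ) = Icc 0 a := by
          ext x; simp only [mem_inter_iff, mem_Iic, mem_Ico, mem_Icc]
          constructor
          · rintro ⟨h1, h2, h3⟩; exact ⟨h2, h1⟩
          · rintro ⟨h1, h2⟩; exact ⟨h2, h1, by linarith⟩
        have e2 : (Iic a ∩ A ∩ Ico (0 : ℝ) 1 : Set ℝ) = A ∩ Icc 0 a := by
          rw [inter_right_comm, e1, inter_comm]
        rw [e1, e2]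
        have e3 : volume (A ∩ Icc 0 a) = volume (A ∩ Ioc 0 a) :=
          measure_congr (EventuallyEq.inter (ae_eq_refl _) Ioc_ae_eq_Icc.symm)
        rw [e3, measureReal_Ioc hA ha, P.lin_of_inv hA hinv ha ha1, Real.volume_Icc, sub_zero,
          ENNReal.toReal_ofReal ha]
        ring
      · have e1 : (Iic a ∩ Ico (0 : ℝ) 1 : Set ℝ) = Ico 0 1 := by
          ext x; simp only [mem_inter_iff, mem_Iic, mem_Ico]
          constructor
          · rintro ⟨h1, h2⟩; exact h2
          · rintro ⟨h1, h2⟩; exact ⟨by linarith, h1, h2⟩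
        have e2 : (Iic a ∩ A ∩ Ico (0 : ℝ) 1 : Set ℝ) = A ∩ Ico 0 1 := by
          rw [inter_right_comm, e1, inter_comm]
        rw [e1, e2]
        have e3 : volume (A ∩ Ico (0 : ℝ) 1) = volume (A ∩ Ioc 0 1) :=
          measure_congr (EventuallyEq.inter (ae_eq_refl _)
            Ico_ae_eq_Ioc)
        rw [e3, measureReal_Ioc hA zero_le_one, Real.volume_Ico]
        simp [← hc]
  have h1 : lam A = ENNReal.ofReal c * lam A := by
    have := congrArg (fun ν : Measure ℝ => ν A) key
    simp only [Measure.restrict_apply hA, inter_self, Measure.smul_apply, smul_eq_mul] at this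
    exact this
  have h2 : lam A = ENNReal.ofReal c := by
    have := congrArg (fun ν : Measure ℝ => ν univ) key
    simp only [Measure.restrict_apply MeasurableSet.univ, univ_inter, Measure.smul_apply,
      smul_eq_mul] at this
    rw [this]
    have : lam univ = 1 := by
      unfold lam; simp
    rw [this, mul_one]
  rw [h2] at h1
  rw [← ENNReal.ofReal_mul hc0, ENNReal.ofReal_eq_ofReal_iff hc0 (mul_nonneg hc0 hc0)] at h1
  have h3 : c = 0 ∨ c = 1 := by
    have : c * (c - 1) = 0 := by linarith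
    rcases mul_eq_zero.1 this with h | h
    · exact Or.inl h
    · exact Or.inr (by linarith)
  rcases h3 with h | h
  · left; rw [h2, h]; simp
  · right
    rw [measure_compl hA (measure_ne_top _ _), h2, h]
    have : lam univ = 1 := by
      unfold lam; simp
    rw [this]; simp

theorem ergodic : Ergodic P.S P.μ := by
  refine ⟨P.map_μ, ⟨?_⟩⟩
  intro A hA hinv
  rcases P.zero_one hA hinv with h | h
  · have h1 := P.μ_ac h
    rw [eventuallyConst_set']
    left
    exact (ae_eq_empty.2 h1)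
  · have h1 := P.μ_ac h
    rw [eventuallyConst_set']
    right
    exact (ae_eq_univ.2 h1)

/-- Birkhoff, Lebesgue almost everywhere -/
theorem birk {φ : ℝ → ℝ} (hφ : Measurable φ) (hb : ∃ C, ∀ x, |φ x| ≤ C) :
    ∀ᵐ x ∂lam, Tendsto (fun n : ℕ => (n : ℝ)⁻¹ * ∑ k ∈ Finset.range n, φ (P.S^[k] x)) atTop
      (𝓝 (∫ x, φ x ∂P.μ)) :=
  P.lam_ac.ae_le (Pool.Agent.H165R3.birkhoff P.ergodic φ hφ hb)

end Par

end Pool.Agent.R266.BE
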