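import Pool.Agent.R266.BE.C

set_option autoImplicit false

open Set Filter Topology MeasureTheory

namespace Pool.Agent.R266.BE

namespace Par

variable (P : Par)

/-- digit of a point -/
noncomputable def kh (y : ℝ) : ℕ := min P.m ⌊P.β * y + P.α⌋₊

noncomputable def Sh (y : ℝ) : ℝ := P.β * y + P.α - P.kh y

lemma kh_le (y : ℝ) : P.kh y ≤ P.m := min_le_left _ _

lemma measurable_kh : Measurable P.kh := by
  unfold kh
  exact measurable_const.min
    (Nat.measurable_floor.comp ((measurable_const.mul measurable_id).add measurable_const))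

lemma measurable_Sh : Measurable P.Sh := by
  unfold Sh
  exact ((measurable_const.mul measurable_id).add measurable_const).sub
    (measurable_from_top.comp P.measurable_kh)

lemma β_eq : P.β = P.m + 1 - 2 * P.α := by linarith [P.two_α]

lemma kh_unit {y : ℝ} (h1 : y < 1) : P.kh y = ⌊P.β * y + P.α⌋₊ := by
  unfold kh
  refine min_eq_right ?_
  have h2 : P.β * y + P.α < P.m + 1 := by
    have := mul_lt_mul_of_pos_left h1 P.β_pos
    have := P.β_eq
    have := P.α_pos
    linarith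
  by_cases h3 : 0 ≤ P.β * y + P.α
  · have : ⌊P.β * y + P.α⌋₊ < P.m + 1 := (Nat.floor_lt h3).2 (by push_cast; exact h2)
    omega
  · rw [Nat.floor_of_nonpos (by linarith)]; exact Nat.zero_le _

lemma Sh_unit {y : ℝ} (h0 : 0 ≤ y) (h1 : y < 1) : P.Sh y = P.S y := by
  unfold Sh S
  rw [P.kh_unit h1]
  have hnn : 0 ≤ P.β * y + P.α := by
    have := mul_nonneg P.β_pos.le h0
    linarith [P.α_pos]
  have h3 : ((⌊P.β * y + P.α⌋ : ℤ) : ℝ) = (⌊P.β * y + P.α⌋₊ : ℝ) := by
    rw [← Int.natCast_floor_eq_floor hnn]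
    simp
  rw [← h3]; exact Int.self_sub_floor _

lemma Sh_iter_unit {y : ℝ} (h0 : 0 ≤ y) (h1 : y < 1) (n : ℕ) :
    P.Sh^[n] y = P.S^[n] y ∧ 0 ≤ P.S^[n] y ∧ P.S^[n] y < 1 := by
  induction n with
  | zero => exact ⟨rfl, h0, h1⟩
  | succ n ih =>
    obtain ⟨e, a, b⟩ := ih
    rw [Function.iterate_succ_apply', Function.iterate_succ_apply', e, P.Sh_unit a b]
    exact ⟨rfl, P.S_nonneg _, P.S_lt_one _⟩

lemma mul_lo : P.β * P.lo = P.α + P.lo := by
  have := P.lo_mul
  linarith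

lemma Sh_neg {y : ℝ} (h : y < 0) : P.kh y = 0 ∧ P.Sh y + P.lo = P.β * (y + P.lo)
    ∧ P.Sh y < 1 := by
  have h1 : P.β * y + P.α < 1 := by
    have := mul_neg_of_pos_of_neg P.β_pos h
    linarith [P.α_lt]
  have h2 : P.kh y = 0 := by
    unfold kh
    have : ⌊P.β * y + P.α⌋₊ = 0 := Nat.floor_eq_zero.2 h1
    rw [this]; simp
  refine ⟨h2, ?_, ?_⟩
  · unfold Sh; rw [h2]; push_cast
    have := P.mul_lo
    linarith
  · unfold Sh; rw [h2]; push_cast
    linarith

lemma Sh_big {y : ℝ} (h : 1 ≤ y) : P.kh y = P.m ∧ 1 + P.lo - P.Sh y = P.β * (1 + P.lo - y)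
    ∧ 0 ≤ P.Sh y := by
  have h1 : (P.m : ℝ) ≤ P.β * y + P.α := by
    have := mul_le_mul_of_nonneg_left h P.β_pos.le
    have := P.β_eq
    have := P.α_lt
    linarith
  have h2 : P.kh y = P.m := by
    unfold kh
    exact min_eq_left (Nat.le_floor h1)
  refine ⟨h2, ?_, ?_⟩
  · unfold Sh; rw [h2]
    have := P.mul_lo
    have := P.β_eq
    linarith
  · unfold Sh; rw [h2]
    linarith

/-- interior of the set of representable points -/
def Int0 : Set ℝ := Ioo (-P.lo) (1 + P.lo)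

lemma Sh_int {y : ℝ} (hy : y ∈ P.Int0) : P.Sh y ∈ P.Int0 := by
  have hlo := P.lo_pos
  rcases lt_or_ge y 0 with h | h
  · obtain ⟨-, h2, h3⟩ := P.Sh_neg h
    have h4 : 0 < P.β * (y + P.lo) := mul_pos P.β_pos (by linarith [hy.1])
    exact ⟨by linarith, by linarith⟩
  · rcases lt_or_ge y 1 with h' | h'
    · rw [P.Sh_unit h h']
      exact ⟨by linarith [P.S_nonneg y], by linarith [P.S_lt_one y]⟩
    · obtain ⟨-, h2, h3⟩ := P.Sh_big h'
      have h4 : 0 < P.β * (1 + P.lo - y) := mul_pos P.β_pos (by linarith [hy.2])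
      exact ⟨by linarith, by linarith⟩

/-- apply a word of digits -/
noncomputable def N (y : ℝ) : List ℕ → ℝ
  | [] => y
  | j :: w => N (P.β * y + P.α - j) w

lemma enter_neg {y : ℝ} (hy : -P.lo < y) (h : y < 0) : ∃ n, 0 ≤ P.Sh^[n] y := by
  by_contra hcon
  push Not at hcon
  have h1 : ∀ n, P.Sh^[n] y + P.lo = P.β ^ n * (y + P.lo) := by
    intro n
    induction n with
    | zero => simp
    | succ n ih =>
      rw [Function.iterate_succ_apply', (P.Sh_neg (hcon n)).2.1, ih]; ring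
  have hpos : 0 < y + P.lo := by linarith
  obtain ⟨n, hn⟩ := pow_unbounded_of_one_lt (P.lo / (y + P.lo)) (by linarith [P.two_lt] : 1 < P.β)
  have h2 := h1 n
  have h3 := hcon n
  rw [div_lt_iff₀ hpos] at hn
  linarith

lemma enter_big {y : ℝ} (hy : y < 1 + P.lo) (h : 1 ≤ y) : ∃ n, P.Sh^[n] y < 1 := by
  by_contra hcon
  push Not at hcon
  have h1 : ∀ n, 1 + P.lo - P.Sh^[n] y = P.β ^ n * (1 + P.lo - y) := by
    intro n
    induction n with
    | zero => simp
    | succ n ih =>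
      rw [Function.iterate_succ_apply', (P.Sh_big (hcon n)).2.1, ih]; ring
  have hpos : 0 < 1 + P.lo - y := by linarith
  obtain ⟨n, hn⟩ := pow_unbounded_of_one_lt (P.lo / (1 + P.lo - y))
    (by linarith [P.two_lt] : 1 < P.β)
  have h2 := h1 n
  have h3 := hcon n
  rw [div_lt_iff₀ hpos] at hn
  linarith

lemma enter {y : ℝ} (hy : y ∈ P.Int0) : ∃ n, 0 ≤ P.Sh^[n] y ∧ P.Sh^[n] y < 1 := by
  classical
  rcases lt_or_ge y 0 with h | h
  · have hex := P.enter_neg hy.1 h
    have h1 := Nat.find_spec hex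
    set n := Nat.find hex with hn
    have hpos : n ≠ 0 := by
      intro h0
      rw [h0] at h1
      simp at h1; linarith
    obtain ⟨j, hj⟩ := Nat.exists_eq_succ_of_ne_zero hpos
    have h2 : ¬ 0 ≤ P.Sh^[j] y := Nat.find_min hex (by omega)
    refine ⟨n, h1, ?_⟩
    rw [hj, Function.iterate_succ_apply']
    exact (P.Sh_neg (not_le.1 h2)).2.2
  · rcases lt_or_ge y 1 with h' | h'
    · exact ⟨0, h, h'⟩
    · have hex := P.enter_big hy.2 h'
      have h1 := Nat.find_spec hex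
      set n := Nat.find hex with hn
      have hpos : n ≠ 0 := by
        intro h0
        rw [h0] at h1
        simp at h1; linarith
      obtain ⟨j, hj⟩ := Nat.exists_eq_succ_of_ne_zero hpos
      have h2 : ¬ P.Sh^[j] y < 1 := Nat.find_min hex (by omega)
      refine ⟨n, ?_, h1⟩
      rw [hj, Function.iterate_succ_apply']
      exact (P.Sh_big (not_lt.1 h2)).2.2

lemma iter_eq_N (n : ℕ) : ∀ y, ∃ w, P.Sh^[n] y = P.N y w := by
  induction n with
  | zero => intro y; exact ⟨[], rfl⟩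
  | succ n ih =>
    intro y
    rw [Function.iterate_succ_apply]
    obtain ⟨w, hw⟩ := ih (P.Sh y)
    exact ⟨P.kh y :: w, hw⟩

/-- hereditary points -/
def Her (T : Set ℝ) : Set ℝ :=
  {y | y ∈ P.Int0 ∧ ∀ w, P.N y w ∈ Ico (0 : ℝ) 1 → P.N y w ∈ T}

lemma Her_step {T : Set ℝ} {y : ℝ} (hy : y ∈ P.Her T) {j : ℕ}
    (h : P.β * y + P.α - j ∈ P.Int0) : P.β * y + P.α - j ∈ P.Her T :=
  ⟨h, fun w hw => hy.2 (j :: w) hw⟩

lemma Her_Sh {T : Set ℝ} {y : ℝ} (hy : y ∈ P.Her T) : P.Sh y ∈ P.Her T :=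
  P.Her_step hy (P.Sh_int hy.1)

lemma Her_iter {T : Set ℝ} {y : ℝ} (hy : y ∈ P.Her T) (n : ℕ) : P.Sh^[n] y ∈ P.Her T := by
  induction n with
  | zero => exact hy
  | succ n ih => rw [Function.iterate_succ_apply']; exact P.Her_Sh ih

lemma null_affine {B : Set ℝ} (hB : volume B = 0) (c : ℝ) :
    volume ((fun y => P.β * y + c) ⁻¹' B) = 0 := by
  have e : (fun y => P.β * y + c) ⁻¹' B = (fun y => P.β * y) ⁻¹' ((fun y => y + c) ⁻¹' B) := rfl
  rw [e, Real.volume_preimage_mul_left P.β_pos.ne', measure_preimage_add_right, hB, mul_zero]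

lemma null_N {B : Set ℝ} (hB : volume B = 0) (w : List ℕ) :
    volume {y | P.N y w ∈ B} = 0 := by
  induction w with
  | nil => exact hB
  | cons j w ih =>
    have e : {y | P.N y (j :: w) ∈ B} = (fun y => P.β * y + (P.α - j)) ⁻¹' {y | P.N y w ∈ B} := by
      ext y
      simp only [mem_ofPred_eq, mem_preimage, N]
      rw [add_sub_assoc]
    rw [e]
    exact P.null_affine ih _

lemma ae_Her {T : Set ℝ} (hT : ∀ᵐ y ∂lam, y ∈ T) :
    ∀ᵐ y : ℝ ∂volume, y ∈ P.Int0 → y ∈ P.Her T := by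
  have h1 : volume (Ico (0 : ℝ) 1 \ T) = 0 := by
    unfold lam at hT
    rw [ae_restrict_iff' measurableSet_Ico] at hT
    rw [ae_iff] at hT
    have : (Ico (0 : ℝ) 1 \ T) = {a | ¬(a ∈ Ico (0 : ℝ) 1 → a ∈ T)} := by
      ext x; simp [and_assoc]
    rw [this]; exact hT
  have h2 : ∀ w : List ℕ, ∀ᵐ y : ℝ ∂volume, P.N y w ∉ (Ico (0 : ℝ) 1 \ T) := by
    intro w
    have h3 := P.null_N h1 w
    rw [ae_iff]
    refine measure_mono_null (fun y hy => ?_) h3
    exact not_not.1 hy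
  rw [← ae_all_iff] at h2
  filter_upwards [h2] with y hy hint
  refine ⟨hint, fun w hw => ?_⟩
  by_contra h
  exact hy w ⟨hw, h⟩

/-! ### counting -/

/-- number of digits `k` in the first `n` steps -/
noncomputable def cnt (y : ℝ) (k n : ℕ) : ℝ :=
  ∑ i ∈ Finset.range n, if P.kh (P.Sh^[i] y) = k then (1 : ℝ) else 0

noncomputable def p (k : ℕ) : ℝ := ∫ x, (if P.kh x = k then (1 : ℝ) else 0) ∂P.μ

lemma measurable_ind (k : ℕ) : Measurable (fun x => if P.kh x = k then (1 : ℝ) else 0) :=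
  Measurable.ite (P.measurable_kh (measurableSet_singleton k)) measurable_const measurable_const

lemma cnt_nonneg (y : ℝ) (k n : ℕ) : 0 ≤ P.cnt y k n :=
  Finset.sum_nonneg fun i _ => by split_ifs <;> norm_num

lemma cnt_le (y : ℝ) (k n : ℕ) : P.cnt y k n ≤ n := by
  unfold cnt
  calc _ ≤ ∑ i ∈ Finset.range n, (1 : ℝ) := Finset.sum_le_sum fun i _ => by split_ifs <;> norm_num
    _ = n := by simp

lemma p_nonneg (k : ℕ) : 0 ≤ P.p k := integral_nonneg fun x => by
  show 0 ≤ (if P.kh x = k then (1 : ℝ) else 0)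
  split_ifs <;> norm_num

lemma p_le_one (k : ℕ) : P.p k ≤ 1 := by
  have h1 : P.p k ≤ ∫ _x, (1 : ℝ) ∂P.μ := by
    unfold p
    refine integral_mono_of_nonneg (Eventually.of_forall fun x => ?_) (integrable_const _)
      (Eventually.of_forall fun x => ?_)
    · show 0 ≤ (if P.kh x = k then (1 : ℝ) else 0)
      split_ifs <;> norm_num
    · show (if P.kh x = k then (1 : ℝ) else 0) ≤ 1
      split_ifs <;> norm_num
  simpa using h1

lemma cnt_add (y : ℝ) (k a b : ℕ) : P.cnt y k (a + b) = P.cnt y k a + P.cnt (P.Sh^[a] y) k b := by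
  unfold cnt
  rw [Finset.sum_range_add]
  congr 1
  refine Finset.sum_congr rfl fun i _ => ?_
  rw [add_comm a i, Function.iterate_add_apply]

lemma abs_cnt_sub_le (y : ℝ) (k n : ℕ) : |P.cnt y k n - P.p k * n| ≤ n := by
  have h1 := P.cnt_nonneg y k n
  have h2 := P.cnt_le y k n
  have h3 := P.p_nonneg k
  have h4 := P.p_le_one k
  have h5 : P.p k * n ≤ n := by nlinarith [Nat.cast_nonneg (α := ℝ) n]
  have h6 : 0 ≤ P.p k * n := by positivity
  rw [abs_le]; constructor <;> linarith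

lemma measurable_cnt (k n : ℕ) : Measurable (fun y => P.cnt y k n) := by
  unfold cnt
  refine Finset.measurable_sum _ fun i _ => ?_
  exact (P.measurable_ind k).comp (P.measurable_Sh.iterate i)

/-- symmetry of the frequencies -/
lemma p_symm {k : ℕ} (hk : k ≤ P.m) : P.p (P.m - k) = P.p k := by
  unfold p
  rw [P.int_μ (P.measurable_ind _), P.int_μ (P.measurable_ind _)]
  congr 1
  have hb : ∀ j : ℕ, ∀ x, |(if P.kh x = j then (1 : ℝ) else 0)| ≤ 1 := fun j x => by
    split_ifs <;> norm_num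
  rw [← sym_M P (P.measurable_ind (P.m - k)) (hb _)]
  refine intervalIntegral.integral_congr_ae ?_
  have hcount : (range fun n : ℕ => ((n : ℝ) - P.α) / P.β).Countable := countable_range _
  have h1 : ∀ᵐ x : ℝ ∂volume, x ∉ (range fun n : ℕ => ((n : ℝ) - P.α) / P.β) :=
    compl_mem_ae_iff.mpr (hcount.measure_zero volume)
  have h2 : ∀ᵐ x : ℝ ∂volume, x ≠ 1 := compl_mem_ae_iff.mpr (measure_singleton (1 : ℝ))
  filter_upwards [h1, h2] with x hx hx1 hxi
  rw [uIoc_of_le zero_le_one] at hxi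
  have hx0 := hxi.1
  have hx1' : x < 1 := lt_of_le_of_ne hxi.2 hx1
  have hnn : 0 ≤ P.β * x + P.α := by
    have := mul_nonneg P.β_pos.le hx0.le
    linarith [P.α_pos]
  set n := ⌊P.β * x + P.α⌋₊ with hn
  have e1 : P.kh x = n := P.kh_unit hx1'
  have hle : (n : ℝ) ≤ P.β * x + P.α := Nat.floor_le hnn
  have hlt : P.β * x + P.α < n + 1 := Nat.lt_floor_add_one _
  have hne : (n : ℝ) ≠ P.β * x + P.α := by
    intro h
    refine hx ⟨n, ?_⟩
    simp only
    rw [h]
    field_simp [P.β_pos.ne']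
    ring
  have hlt' : (n : ℝ) < P.β * x + P.α := lt_of_le_of_ne hle hne
  have hnm : n ≤ P.m := by rw [← e1]; exact P.kh_le x
  have e2 : P.kh (1 - x) = P.m - n := by
    rw [P.kh_unit (by linarith)]
    rw [Nat.floor_eq_iff]
    · have : ((P.m - n : ℕ) : ℝ) = (P.m : ℝ) - n := by
        rw [Nat.cast_sub hnm]
      rw [this]
      have := P.β_eq
      constructor
      · nlinarith
      · nlinarith
    · have := mul_nonneg P.β_pos.le (by linarith : 0 ≤ 1 - x)
      linarith [P.α_pos]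
  rw [e1, e2]
  have : (P.m - n = P.m - k) ↔ (n = k) := by omega
  simp only [this]

end Par

end Pool.Agent.R266.BE
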