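import Pool.Agent.R266.BE.D

set_option autoImplicit false

open Set Filter Topology MeasureTheory

namespace Pool.Agent.R266.BE

namespace Par

variable (P : Par)

/-- points of the unit interval with the right digit frequencies -/
def T0 : Set ℝ :=
  {y | 0 ≤ y ∧ y < 1 ∧ ∀ k, Tendsto (fun n : ℕ => (n : ℝ)⁻¹ * P.cnt y k n) atTop (𝓝 (P.p k))}

lemma ae_unit : ∀ᵐ y ∂lam, 0 ≤ y ∧ y < 1 := by
  unfold lam
  exact (ae_restrict_iff' measurableSet_Ico).2 (Eventually.of_forall fun x hx => hx)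

lemma cnt_unit {y : ℝ} (h0 : 0 ≤ y) (h1 : y < 1) (k n : ℕ) :
    P.cnt y k n = ∑ i ∈ Finset.range n, (if P.kh (P.S^[i] y) = k then (1 : ℝ) else 0) := by
  unfold cnt
  refine Finset.sum_congr rfl fun i _ => ?_
  rw [(P.Sh_iter_unit h0 h1 i).1]

lemma ae_T0 : ∀ᵐ y ∂lam, y ∈ P.T0 := by
  have h1 : ∀ k : ℕ, ∀ᵐ x ∂lam, Tendsto (fun n : ℕ => (n : ℝ)⁻¹ *
      ∑ i ∈ Finset.range n, (if P.kh (P.S^[i] x) = k then (1 : ℝ) else 0)) atTop (𝓝 (P.p k)) := by
    intro k
    refine P.birk (P.measurable_ind k) ⟨1, fun x => ?_⟩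
    split_ifs <;> norm_num
  rw [← ae_all_iff] at h1
  filter_upwards [h1, ae_unit] with y hy hu
  refine ⟨hu.1, hu.2, fun k => ?_⟩
  have : (fun n : ℕ => (n : ℝ)⁻¹ * P.cnt y k n) = fun n : ℕ => (n : ℝ)⁻¹ *
      ∑ i ∈ Finset.range n, (if P.kh (P.S^[i] y) = k then (1 : ℝ) else 0) := by
    funext n; rw [P.cnt_unit hu.1 hu.2]
  rw [this]; exact hy k

lemma freq_Her {y : ℝ} (hy : y ∈ P.Her P.T0) (k : ℕ) :
    Tendsto (fun n : ℕ => (n : ℝ)⁻¹ * P.cnt y k n) atTop (𝓝 (P.p k)) := by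
  obtain ⟨a, ha0, ha1⟩ := P.enter hy.1
  obtain ⟨w, hw⟩ := P.iter_eq_N a y
  have hz : P.Sh^[a] y ∈ P.T0 := by
    rw [hw]
    refine hy.2 w ?_
    rw [← hw]; exact ⟨ha0, ha1⟩
  have h1 := hz.2.2 k
  rw [← tendsto_add_atTop_iff_nat a]
  have e : ∀ n : ℕ, 1 ≤ n → ((n + a : ℕ) : ℝ)⁻¹ * P.cnt y k (n + a)
      = ((n + a : ℕ) : ℝ)⁻¹ * P.cnt y k a
        + ((n : ℝ) * ((n + a : ℕ) : ℝ)⁻¹) * ((n : ℝ)⁻¹ * P.cnt (P.Sh^[a] y) k n) := by
    intro n hn
    rw [add_comm n a, P.cnt_add, mul_add]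
    congr 1
    have : (n : ℝ) ≠ 0 := by positivity
    field_simp
  have t1 : Tendsto (fun n : ℕ => ((n + a : ℕ) : ℝ)⁻¹) atTop (𝓝 0) :=
    (tendsto_add_atTop_iff_nat (f := fun n : ℕ => ((n : ℕ) : ℝ)⁻¹) a).2
      tendsto_inv_atTop_nhds_zero_nat
  have t2 : Tendsto (fun n : ℕ => (n : ℝ) * ((n + a : ℕ) : ℝ)⁻¹) atTop (𝓝 1) := by
    have h3 : ∀ n : ℕ, 1 ≤ n → (n : ℝ) * ((n + a : ℕ) : ℝ)⁻¹ = 1 - a * ((n + a : ℕ) : ℝ)⁻¹ := by
      intro n hn
      have : ((n + a : ℕ) : ℝ) ≠ 0 := by positivity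
      field_simp
      push_cast; ring
    have h4 : Tendsto (fun n : ℕ => 1 - (a : ℝ) * ((n + a : ℕ) : ℝ)⁻¹) atTop (𝓝 (1 - a * 0)) :=
      tendsto_const_nhds.sub (t1.const_mul _)
    rw [mul_zero, sub_zero] at h4
    refine h4.congr' ?_
    filter_upwards [eventually_ge_atTop 1] with n hn
    exact (h3 n hn).symm
  have t3 := (t1.mul_const (P.cnt y k a)).add (t2.mul h1)
  rw [zero_mul, one_mul, zero_add] at t3
  refine t3.congr' ?_
  filter_upwards [eventually_ge_atTop 1] with n hn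
  exact (e n hn).symm

/-- uniformly good frequencies from time `L` on -/
def UG (j L : ℕ) (y : ℝ) : Prop :=
  ∀ n, L ≤ n → ∀ k ≤ P.m, |P.cnt y k n - P.p k * n| ≤ n / (j + 1)

lemma UG_mono {j L L' : ℕ} (h : L ≤ L') {y : ℝ} (hy : P.UG j L y) : P.UG j L' y :=
  fun n hn => hy n (h.trans hn)

lemma UG_zero (y : ℝ) : P.UG 0 0 y := by
  intro n _ k _
  simpa using P.abs_cnt_sub_le y k n

lemma exists_UG {y : ℝ} (hy : y ∈ P.Her P.T0) (j : ℕ) : ∃ L, P.UG j L y := by
  have h1 : ∀ k, ∀ᶠ n : ℕ in atTop, |P.cnt y k n - P.p k * n| ≤ n / (j + 1) := by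
    intro k
    have h2 := P.freq_Her hy k
    have h3 := (Metric.tendsto_nhds.1 h2) (1 / ((j : ℝ) + 1)) (by positivity)
    filter_upwards [h3, eventually_ge_atTop 1] with n hn hn1
    rw [Real.dist_eq] at hn
    have hnpos : (0 : ℝ) < n := by exact_mod_cast hn1
    have e : P.cnt y k n - P.p k * n = n * ((n : ℝ)⁻¹ * P.cnt y k n - P.p k) := by
      field_simp
    rw [e, abs_mul, abs_of_pos hnpos]
    calc (n : ℝ) * |_| ≤ n * (1 / ((j : ℝ) + 1)) := mul_le_mul_of_nonneg_left hn.le hnpos.le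
      _ = n / (j + 1) := by ring
  have h4 : ∀ᶠ n : ℕ in atTop, ∀ k ∈ Finset.range (P.m + 1),
      |P.cnt y k n - P.p k * n| ≤ n / (j + 1) :=
    (Filter.eventually_all_finset _).2 fun k _ => h1 k
  obtain ⟨L, hL⟩ := eventually_atTop.1 h4
  exact ⟨L, fun n hn k hk => hL n hn k (Finset.mem_range.2 (by omega))⟩

lemma measurableSet_UG (j L : ℕ) : MeasurableSet {y | P.UG j L y} := by
  have : {y | P.UG j L y} = ⋂ n : ℕ, ⋂ (_ : L ≤ n), ⋂ k : ℕ, ⋂ (_ : k ≤ P.m),
      {y | |P.cnt y k n - P.p k * n| ≤ (n : ℝ) / (j + 1)} := by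
    ext y; simp [UG]
  rw [this]
  refine MeasurableSet.iInter fun n => MeasurableSet.iInter fun _ => MeasurableSet.iInter fun k =>
    MeasurableSet.iInter fun _ => ?_
  exact measurableSet_le ((P.measurable_cnt k n).sub_const _).abs measurable_const

/-- switching points -/
def W : Set ℝ := {z | 0 ≤ z ∧ z < 1 ∧ 1 ≤ P.kh z ∧ P.S z < P.lo}

def U (j L : ℕ) : Set ℝ := P.W ∩ {z | P.UG j L (P.S z) ∧ P.UG j L (P.S z + 1)}

lemma measurableSet_W : MeasurableSet P.W := by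
  have : P.W = Ico 0 1 ∩ (P.kh ⁻¹' {k | 1 ≤ k} ∩ {z | P.S z < P.lo}) := by
    ext z; simp [W, and_assoc]
  rw [this]
  exact measurableSet_Ico.inter ((P.measurable_kh (MeasurableSet.of_discrete)).inter
    (measurableSet_lt P.measurable_S measurable_const))

lemma measurableSet_U (j L : ℕ) : MeasurableSet (P.U j L) := by
  unfold U
  refine P.measurableSet_W.inter ?_
  have h1 : MeasurableSet {z | P.UG j L (P.S z)} := P.measurable_S (P.measurableSet_UG j L)
  have h2 : MeasurableSet {z | P.UG j L (P.S z + 1)} :=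
    (P.measurable_S.add_const 1) (P.measurableSet_UG j L)
  exact h1.inter h2

lemma W_pos : volume P.W ≠ 0 := by
  have hlo := P.lo_pos
  have hα0 := P.α_pos
  have hα1 := P.α_lt
  have hβ := P.two_lt
  set r := min P.lo 1 with hr
  have hr0 : 0 < r := lt_min hlo one_pos
  have hr1 : r ≤ 1 := min_le_right _ _
  have hr2 : r ≤ P.lo := min_le_left _ _
  have hsub : Ioo ((1 - P.α) / P.β) ((1 - P.α + r) / P.β) ⊆ P.W := by
    intro z hz
    have h1 : 1 - P.α < z * P.β := (div_lt_iff₀ P.β_pos).1 hz.1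
    have h2 : z * P.β < 1 - P.α + r := (lt_div_iff₀ P.β_pos).1 hz.2
    have h3 : 0 < z := lt_trans (div_pos (by linarith) P.β_pos) hz.1
    have h4 : z < 1 := by
      by_contra h
      push Not at h
      have : P.β ≤ z * P.β := by nlinarith [P.β_pos]
      linarith
    have h5 : P.kh z = 1 := by
      rw [P.kh_unit h4, Nat.floor_eq_iff]
      · push_cast; constructor <;> linarith
      · have := mul_nonneg P.β_pos.le h3.le
        linarith
    have h6 : P.S z = P.β * z + P.α - 1 := by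
      rw [← P.Sh_unit h3.le h4]
      unfold Sh
      rw [h5]; push_cast; ring
    refine ⟨h3.le, h4, by rw [h5], ?_⟩
    rw [h6]; linarith
  intro h
  have h1 := measure_mono_null hsub h
  rw [Real.volume_Ioo, ENNReal.ofReal_eq_zero] at h1
  have h2 : (1 - P.α) / P.β < (1 - P.α + r) / P.β :=
    div_lt_div_of_pos_right (by linarith) P.β_pos
  linarith

lemma ae_Her_T0 : ∀ᵐ y : ℝ ∂volume, y ∈ P.Int0 → y ∈ P.Her P.T0 := P.ae_Her P.ae_T0

lemma step_Her {T : Set ℝ} {z : ℝ} (hz : z ∈ P.Her T) (hW : z ∈ P.W) :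
    P.S z ∈ P.Her T ∧ P.S z + 1 ∈ P.Her T := by
  obtain ⟨h0, h1, h2, h3⟩ := hW
  have e : P.S z = P.β * z + P.α - P.kh z := by
    rw [← P.Sh_unit h0 h1]; rfl
  have hlo := P.lo_pos
  constructor
  · rw [← P.Sh_unit h0 h1]; exact P.Her_Sh hz
  · have e2 : P.S z + 1 = P.β * z + P.α - ((P.kh z - 1 : ℕ) : ℝ) := by
      rw [Nat.cast_sub h2, e]; push_cast; ring
    rw [e2]
    refine P.Her_step hz ?_
    rw [← e2]
    exact ⟨by linarith [P.S_nonneg z], by linarith⟩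

lemma exists_L (j : ℕ) : ∃ L, volume (P.U j L) ≠ 0 := by
  by_contra hcon
  push Not at hcon
  have h1 : volume (⋃ L, P.U j L) = 0 := measure_iUnion_null hcon
  have h2 := P.ae_Her_T0
  rw [ae_iff] at h2
  refine P.W_pos (measure_mono_null ?_ (measure_union_null h1 h2))
  intro z hz
  have hlo := P.lo_pos
  by_cases hh : z ∈ P.Int0 → z ∈ P.Her P.T0
  · left
    have hzH := hh ⟨by linarith [hz.1], by linarith [hz.2.1]⟩
    obtain ⟨s1, s2⟩ := P.step_Her hzH hz
    obtain ⟨L1, hL1⟩ := P.exists_UG s1 j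
    obtain ⟨L2, hL2⟩ := P.exists_UG s2 j
    refine mem_iUnion.2 ⟨max L1 L2, hz, P.UG_mono (le_max_left _ _) hL1,
      P.UG_mono (le_max_right _ _) hL2⟩
  · right; exact hh

/-- time scales -/
noncomputable def LL : ℕ → ℕ
  | 0 => 0
  | j + 1 => Classical.choose (P.exists_L (j + 1))

/-- switching regions -/
def R (j : ℕ) : Set ℝ := P.U (j + 1) (P.LL (j + 1))

lemma R_pos (j : ℕ) : volume (P.R j) ≠ 0 := Classical.choose_spec (P.exists_L (j + 1))

/-- typical points -/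
def T1 : Set ℝ := {y | y ∈ P.T0 ∧ ∀ j, ∃ᶠ n in atTop, P.S^[n] y ∈ P.R j}

lemma ae_T1 : ∀ᵐ y ∂lam, y ∈ P.T1 := by
  have h1 : ∀ j : ℕ, ∀ᵐ x ∂lam, ∃ᶠ n in atTop, P.S^[n] x ∈ P.R j := by
    intro j
    have hmeas : MeasurableSet (P.R j) := P.measurableSet_U _ _
    have h2 := P.birk (measurable_one.indicator hmeas) ⟨1, ind_abs (P.R j)⟩
    filter_upwards [h2] with x hx
    rw [integral_indicator_one hmeas] at hx
    by_contra hcon
    rw [Filter.not_frequently] at hcon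
    obtain ⟨B, hB⟩ := eventually_atTop.1 hcon
    have hpos : 0 < P.μ.real (P.R j) := by
      rw [Measure.real, ENNReal.toReal_pos_iff]
      refine ⟨?_, measure_lt_top _ _⟩
      rw [pos_iff_ne_zero]
      intro h0
      have h3 := P.lam_ac h0
      rw [lam_apply hmeas] at h3
      have h4 : P.R j ∩ Ico 0 1 = P.R j := inter_eq_left.2 fun z hz => ⟨hz.1.1, hz.1.2.1⟩
      rw [h4] at h3
      exact P.R_pos j h3
    have hzero : Tendsto (fun n : ℕ => (n : ℝ)⁻¹ *
        ∑ k ∈ Finset.range n, (P.R j).indicator (1 : ℝ → ℝ) (P.S^[k] x)) atTop (𝓝 0) := by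
      have hb : ∀ n, ∑ k ∈ Finset.range n, (P.R j).indicator (1 : ℝ → ℝ) (P.S^[k] x) ≤ B := by
        intro n
        calc ∑ k ∈ Finset.range n, (P.R j).indicator (1 : ℝ → ℝ) (P.S^[k] x)
            ≤ ∑ k ∈ Finset.range n, (if k < B then (1 : ℝ) else 0) := by
              refine Finset.sum_le_sum fun k _ => ?_
              by_cases hk : k < B
              · rw [if_pos hk]
                exact (le_abs_self _).trans (ind_abs _ _)
              · rw [if_neg hk, indicator_of_notMem (hB k (not_lt.1 hk))]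
          _ ≤ B := by
              rw [Finset.sum_ite, Finset.sum_const_zero, add_zero, Finset.sum_const, nsmul_eq_mul,
                mul_one]
              have : (Finset.filter (fun k => k < B) (Finset.range n)).card ≤ (Finset.range B).card := by
                refine Finset.card_le_card fun k hk => ?_
                exact Finset.mem_range.2 (Finset.mem_filter.1 hk).2
              rw [Finset.card_range] at this
              exact_mod_cast this
      have h0 : ∀ n, 0 ≤ ∑ k ∈ Finset.range n, (P.R j).indicator (1 : ℝ → ℝ) (P.S^[k] x) :=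
        fun n => Finset.sum_nonneg fun k _ => indicator_nonneg (fun _ _ => zero_le_one) _
      have lim : Tendsto (fun n : ℕ => (n : ℝ)⁻¹ * (B : ℝ)) atTop (𝓝 0) := by
        have := (tendsto_inv_atTop_nhds_zero_nat (𝕜 := ℝ)).mul_const (B : ℝ)
        simpa using this
      refine squeeze_zero (fun n => mul_nonneg (by positivity) (h0 n)) (fun n => ?_) lim
      exact mul_le_mul_of_nonneg_left (hb n) (by positivity)
    have := tendsto_nhds_unique hx hzero
    linarith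
  rw [← ae_all_iff] at h1
  filter_upwards [h1, P.ae_T0] with y h2 h3
  exact ⟨h3, h2⟩

lemma visit {y : ℝ} (hy : y ∈ P.Her P.T1) (j B : ℕ) : ∃ n, B ≤ n ∧ P.Sh^[n] y ∈ P.R j := by
  obtain ⟨a, ha0, ha1⟩ := P.enter hy.1
  obtain ⟨w, hw⟩ := P.iter_eq_N a y
  have hz : P.Sh^[a] y ∈ P.T1 := by
    rw [hw]
    refine hy.2 w ?_
    rw [← hw]; exact ⟨ha0, ha1⟩
  obtain ⟨n, hn, hn2⟩ := (frequently_atTop.1 (hz.2 j)) B
  refine ⟨n + a, by omega, ?_⟩
  rw [Function.iterate_add_apply, (P.Sh_iter_unit ha0 ha1 n).1]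
  exact hn2

lemma ae_Her_T1 : ∀ᵐ y : ℝ ∂volume, y ∈ P.Int0 → y ∈ P.Her P.T1 := P.ae_Her P.ae_T1

end Par

end Pool.Agent.R266.BE
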