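import Mathlib

set_option autoImplicit false

open Set Filter Topology

namespace Pool.Agent.R266.BE

theorem tree {D : Type} (R V : ℕ → ℕ → (ℕ → D) → Prop)
    (hV : ∀ j t ε ε', (∀ i < t, ε i = ε' i) → V j t ε → V j t ε')
    (ext : ∀ j n ε, R j n ε → ∃ n', n < n' ∧ ∃ ε0 ε1 : ℕ → D, R (j + 1) n' ε0 ∧ R (j + 1) n' ε1 ∧
      (∀ i < n, ε0 i = ε i) ∧ (∀ i < n, ε1 i = ε i) ∧ (∃ i < n', ε0 i ≠ ε1 i) ∧
      ∀ t, n ≤ t → t ≤ n' → V j t ε0 ∧ V j t ε1)
    (εs : ℕ → D) (h0 : R 0 0 εs) :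
    ∃ f : (ℕ → Bool) → (ℕ → D), Function.Injective f ∧ ∀ σ, ∃ ν : ℕ → ℕ, StrictMono ν ∧ ν 0 = 0 ∧
      ∀ j t, ν j ≤ t → t ≤ ν (j + 1) → V j t (f σ) := by
  classical
  have step : ∀ (j : ℕ) (q : {q : ℕ × (ℕ → D) // R j q.1 q.2}),
      ∃ g : Bool → {q : ℕ × (ℕ → D) // R (j + 1) q.1 q.2},
        (∀ b, q.1.1 < (g b).1.1) ∧ (∀ b, ∀ i < q.1.1, (g b).1.2 i = q.1.2 i) ∧
        (∃ i, (∀ b, i < (g b).1.1) ∧ (g true).1.2 i ≠ (g false).1.2 i) ∧
        ∀ b t, q.1.1 ≤ t → t ≤ (g b).1.1 → V j t (g b).1.2 := by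
    intro j q
    obtain ⟨n', hn, ε0, ε1, r0, r1, a0, a1, ⟨i, hi, hne⟩, hv⟩ := ext j q.1.1 q.1.2 q.2
    refine ⟨fun b => if b then ⟨(n', ε1), r1⟩ else ⟨(n', ε0), r0⟩, ?_, ?_, ?_, ?_⟩
    · intro b; cases b <;> simpa using hn
    · intro b; cases b
      · simpa using a0
      · simpa using a1
    · refine ⟨i, ?_, ?_⟩
      · intro b; cases b <;> simpa using hi
      · simpa using hne.symm
    · intro b t h1 h2
      cases b
      · simp at h2 ⊢; exact (hv t h1 h2).1
      · simp at h2 ⊢; exact (hv t h1 h2).2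
  choose g g1 g2 g3 g4 using step
  let node : (ℕ → Bool) → (j : ℕ) → {q : ℕ × (ℕ → D) // R j q.1 q.2} :=
    fun σ j => Nat.rec (motive := fun j => {q : ℕ × (ℕ → D) // R j q.1 q.2}) ⟨(0, εs), h0⟩
      (fun j q => g j q (σ j)) j
  have node0 : ∀ σ, node σ 0 = ⟨(0, εs), h0⟩ := fun σ => rfl
  have nodeS : ∀ σ j, node σ (j + 1) = g j (node σ j) (σ j) := fun σ j => rfl
  have mono : ∀ σ, StrictMono fun j => (node σ j).1.1 := by
    intro σ
    refine strictMono_nat_of_lt_succ fun j => ?_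
    show (node σ j).1.1 < (node σ (j + 1)).1.1
    rw [nodeS]; exact g1 j _ _
  have stab : ∀ σ j j', j ≤ j' → ∀ i < (node σ j).1.1, (node σ j').1.2 i = (node σ j).1.2 i := by
    intro σ j j' hj
    induction j', hj using Nat.le_induction with
    | base => intro i _; rfl
    | succ j' hj ih =>
      intro i hi
      rw [nodeS, g2 j' _ _ i (lt_of_lt_of_le hi ((mono σ).monotone hj))]
      exact ih i hi
  let f : (ℕ → Bool) → (ℕ → D) := fun σ i => (node σ (i + 1)).1.2 i
  have hf : ∀ σ j i, i < (node σ j).1.1 → f σ i = (node σ j).1.2 i := by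
    intro σ j i hi
    have h1 : i < (node σ (i + 1)).1.1 := lt_of_lt_of_le (Nat.lt_succ_self i) ((mono σ).id_le (i + 1))
    rcases le_total j (i + 1) with h | h
    · exact stab σ j (i + 1) h i hi
    · exact (stab σ (i + 1) j h i h1).symm
  refine ⟨f, ?_, ?_⟩
  · intro σ τ hst
    by_contra hne
    have hex : ∃ j, σ j ≠ τ j := by
      by_contra hcon
      push Not at hcon
      exact hne (funext hcon)
    set j := Nat.find hex with hj
    have hj1 : σ j ≠ τ j := Nat.find_spec hex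
    have hj2 : ∀ i < j, σ i = τ i := fun i hi => not_not.1 (Nat.find_min hex hi)
    have hnode : ∀ i ≤ j, node σ i = node τ i := by
      intro i
      induction i with
      | zero => intro _; rfl
      | succ i ih =>
        intro hi
        rw [nodeS, nodeS, ih (by omega), hj2 i (by omega)]
    obtain ⟨i, hi1, hi2⟩ := g3 j (node σ j)
    have e1 : f σ i = (g j (node σ j) (σ j)).1.2 i := by
      have := hf σ (j + 1) i
      rw [nodeS] at this
      exact this (hi1 _)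
    have e2 : f τ i = (g j (node σ j) (τ j)).1.2 i := by
      have := hf τ (j + 1) i
      rw [nodeS, ← hnode j le_rfl] at this
      exact this (hi1 _)
    have e3 : f σ i = f τ i := congrFun hst i
    rw [e1, e2] at e3
    cases hs : σ j <;> cases ht : τ j
    · exact hj1 (by rw [hs, ht])
    · rw [hs, ht] at e3; exact hi2 e3.symm
    · rw [hs, ht] at e3; exact hi2 e3
    · exact hj1 (by rw [hs, ht])
  · intro σ
    refine ⟨fun j => (node σ j).1.1, mono σ, rfl, ?_⟩
    intro j t h1 h2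
    simp only at h1 h2
    have h3 : V j t (node σ (j + 1)).1.2 := by
      rw [nodeS] at h2 ⊢
      exact g4 j _ _ t h1 h2
    refine hV j t _ _ ?_ h3
    intro i hi
    exact (hf σ (j + 1) i (lt_of_lt_of_le hi h2)).symm

end Pool.Agent.R266.BE
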