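import Pool.Agent.R266.BE.E
import Pool.Agent.R266.BE.Tree

set_option autoImplicit false

open Set Filter Topology MeasureTheory

namespace Pool.Agent.R266.BE

/-- count of a digit in a sequence -/
noncomputable def ct (ε : ℕ → ℕ) (k t : ℕ) : ℝ :=
  ∑ i ∈ Finset.range t, if ε i = k then (1 : ℝ) else 0

lemma ct_congr {ε ε' : ℕ → ℕ} {t : ℕ} (h : ∀ i < t, ε i = ε' i) (k : ℕ) : ct ε k t = ct ε' k t := by
  unfold ct
  refine Finset.sum_congr rfl fun i hi => ?_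
  rw [h i (Finset.mem_range.1 hi)]

namespace Par

variable (P : Par)

/-- orbit of a point under a digit sequence -/
noncomputable def Y (y0 : ℝ) (ε : ℕ → ℕ) : ℕ → ℝ
  | 0 => y0
  | t + 1 => P.β * Y y0 ε t + P.α - ε t

lemma Y_congr {y0 : ℝ} {ε ε' : ℕ → ℕ} {t : ℕ} (h : ∀ i < t, ε i = ε' i) :
    P.Y y0 ε t = P.Y y0 ε' t := by
  induction t with
  | zero => rfl
  | succ t ih =>
    rw [Y, Y, ih (fun i hi => h i (by omega)), h t (by omega)]

def Rn (y0 : ℝ) (j n : ℕ) (ε : ℕ → ℕ) : Prop :=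
  P.Y y0 ε n ∈ P.Her P.T1 ∧ P.UG j (P.LL j) (P.Y y0 ε n) ∧ (∀ i < n, ε i ≤ P.m) ∧
    (∀ k ≤ P.m, |ct ε k n - P.p k * n| ≤ 3 * n / (j + 1)) ∧ (j + 1) * P.LL j ≤ n

def V (y0 : ℝ) (j t : ℕ) (ε : ℕ → ℕ) : Prop :=
  P.Y y0 ε t ∈ P.Int0 ∧ (∀ i < t, ε i ≤ P.m) ∧ ∀ k ≤ P.m, |ct ε k t - P.p k * t| ≤ 4 * t / (j + 1)

lemma V_congr (y0 : ℝ) (j t : ℕ) (ε ε' : ℕ → ℕ) (h : ∀ i < t, ε i = ε' i) (hv : P.V y0 j t ε) :
    P.V y0 j t ε' := by
  obtain ⟨h1, h2, h3⟩ := hv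
  refine ⟨?_, ?_, ?_⟩
  · rw [← P.Y_congr h]; exact h1
  · intro i hi; rw [← h i hi]; exact h2 i hi
  · intro k hk; rw [← ct_congr h]; exact h3 k hk

/-- extend a sequence by the orbit of a point and a last digit -/
noncomputable def extSeq (ε : ℕ → ℕ) (n : ℕ) (y : ℝ) (s d : ℕ) (i : ℕ) : ℕ :=
  if i < n then ε i else if i < n + s then P.kh (P.Sh^[i - n] y) else d

lemma extSeq_lt {ε : ℕ → ℕ} {n : ℕ} {y : ℝ} {s d i : ℕ} (h : i < n) :
    P.extSeq ε n y s d i = ε i := if_pos h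

lemma extSeq_mid {ε : ℕ → ℕ} {n : ℕ} {y : ℝ} {s d i : ℕ} (h : i < s) :
    P.extSeq ε n y s d (n + i) = P.kh (P.Sh^[i] y) := by
  unfold extSeq
  rw [if_neg (by omega), if_pos (by omega)]
  congr 3; omega

lemma extSeq_last {ε : ℕ → ℕ} {n : ℕ} {y : ℝ} {s d : ℕ} :
    P.extSeq ε n y s d (n + s) = d := by
  unfold extSeq
  rw [if_neg (by omega), if_neg (by omega)]

lemma Y_ext {y0 : ℝ} {ε : ℕ → ℕ} {n s d : ℕ} {i : ℕ} (hi : i ≤ s) :
    P.Y y0 (P.extSeq ε n (P.Y y0 ε n) s d) (n + i) = P.Sh^[i] (P.Y y0 ε n) := by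
  induction i with
  | zero =>
    simp only [add_zero, Function.iterate_zero, id_eq]
    exact P.Y_congr fun i hi => P.extSeq_lt hi
  | succ i ih =>
    rw [← add_assoc, Y, ih (by omega), P.extSeq_mid (by omega), Function.iterate_succ_apply']
    rfl

lemma ct_ext {ε : ℕ → ℕ} {n s d : ℕ} {y : ℝ} {i : ℕ} (hi : i ≤ s) (k : ℕ) :
    ct (P.extSeq ε n y s d) k (n + i) = ct ε k n + P.cnt y k i := by
  unfold ct cnt
  rw [Finset.sum_range_add]
  congr 1
  · refine Finset.sum_congr rfl fun j hj => ?_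
    rw [P.extSeq_lt (Finset.mem_range.1 hj)]
  · refine Finset.sum_congr rfl fun j hj => ?_
    rw [P.extSeq_mid (lt_of_lt_of_le (Finset.mem_range.1 hj) hi)]

lemma ct_succ (ε : ℕ → ℕ) (k t : ℕ) : ct ε k (t + 1) = ct ε k t + if ε t = k then 1 else 0 := by
  unfold ct; rw [Finset.sum_range_succ]

lemma extSeq_le {ε : ℕ → ℕ} {n : ℕ} {y : ℝ} {s d : ℕ} (h1 : ∀ i < n, ε i ≤ P.m) (hd : d ≤ P.m)
    (i : ℕ) (_hi : i < n + s + 1) : P.extSeq ε n y s d i ≤ P.m := by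
  unfold extSeq
  split_ifs with h2 h3
  · exact h1 i h2
  · exact P.kh_le _
  · exact hd

/-- the arithmetic of one phase -/
lemma phase {y0 : ℝ} {j n : ℕ} {ε : ℕ → ℕ} (hR : P.Rn y0 j n ε) {s d : ℕ} (hd : d ≤ P.m)
    (hs0 : P.LL j ≤ s) (hs1 : (j + 2) * P.LL (j + 1) ≤ s)
    (hs2 : (3 * (n : ℝ) / (j + 1) + 1) ≤ s * (3 / (j + 2) - 1 / (j + 1)))
    (hY : P.β * P.Sh^[s] (P.Y y0 ε n) + P.α - d ∈ P.Her P.T1)
    (hU : P.UG (j + 1) (P.LL (j + 1)) (P.β * P.Sh^[s] (P.Y y0 ε n) + P.α - d)) :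
    P.Rn y0 (j + 1) (n + s + 1) (P.extSeq ε n (P.Y y0 ε n) s d) ∧
      ∀ t, n ≤ t → t ≤ n + s + 1 → P.V y0 j t (P.extSeq ε n (P.Y y0 ε n) s d) := by
  obtain ⟨h1, h2, h3, h4, h5⟩ := hR
  have hj : (0 : ℝ) < (j : ℝ) + 1 := by positivity
  have eY : P.Y y0 (P.extSeq ε n (P.Y y0 ε n) s d) (n + s + 1)
      = P.β * P.Sh^[s] (P.Y y0 ε n) + P.α - d := by
    rw [Y, P.Y_ext le_rfl, P.extSeq_last]
  have hlast : ∀ k ≤ P.m, |ct (P.extSeq ε n (P.Y y0 ε n) s d) k (n + s + 1)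
      - P.p k * ((n + s + 1 : ℕ) : ℝ)| ≤ 3 * ((n + s + 1 : ℕ) : ℝ) / (((j + 1 : ℕ) : ℝ) + 1) := by
    intro k hk
    rw [ct_succ, P.ct_ext le_rfl]
    have a1 := h4 k hk
    have a2 := h2 s hs0 k hk
    have a3 : |(if P.extSeq ε n (P.Y y0 ε n) s d (n + s) = k then (1 : ℝ) else 0) - P.p k| ≤ 1 := by
      have := P.p_nonneg k
      have := P.p_le_one k
      split_ifs <;> rw [abs_le] <;> constructor <;> linarith
    have e : ct ε k n + P.cnt (P.Y y0 ε n) k s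
        + (if P.extSeq ε n (P.Y y0 ε n) s d (n + s) = k then (1 : ℝ) else 0)
        - P.p k * ((n + s + 1 : ℕ) : ℝ)
        = (ct ε k n - P.p k * n) + (P.cnt (P.Y y0 ε n) k s - P.p k * s)
          + ((if P.extSeq ε n (P.Y y0 ε n) s d (n + s) = k then (1 : ℝ) else 0) - P.p k) := by
      push_cast; ring
    rw [e]
    have b1 := abs_add_three (ct ε k n - P.p k * n) (P.cnt (P.Y y0 ε n) k s - P.p k * s)
      ((if P.extSeq ε n (P.Y y0 ε n) s d (n + s) = k then (1 : ℝ) else 0) - P.p k)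
    have b2 : 3 * (n : ℝ) / (j + 1) + (s : ℝ) / (j + 1) + 1 ≤ 3 * (s : ℝ) / (j + 2) := by
      have : (s : ℝ) * (3 / (j + 2) - 1 / (j + 1)) = 3 * s / (j + 2) - s / (j + 1) := by ring
      rw [this] at hs2
      linarith
    have b3 : 3 * (s : ℝ) / (j + 2) ≤ 3 * ((n + s + 1 : ℕ) : ℝ) / (((j + 1 : ℕ) : ℝ) + 1) := by
      push_cast
      have : (j : ℝ) + 1 + 1 = j + 2 := by ring
      rw [this]
      refine div_le_div_of_nonneg_right ?_ (by positivity)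
      have := Nat.cast_nonneg (α := ℝ) n
      linarith
    linarith
  refine ⟨⟨?_, ?_, ?_, hlast, ?_⟩, ?_⟩
  · rw [eY]; exact hY
  · rw [eY]; exact hU
  · exact P.extSeq_le h3 hd
  · have : (j + 1 + 1) * P.LL (j + 1) ≤ s := hs1
    omega
  · intro t ht1 ht2
    obtain ⟨i, rfl⟩ := Nat.exists_eq_add_of_le ht1
    rcases Nat.lt_or_ge s i with hi | hi
    · -- last time
      have hi' : i = s + 1 := by omega
      subst hi'
      refine ⟨?_, ?_, ?_⟩
      · rw [← add_assoc, eY]; exact hY.1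
      · intro i hi; exact P.extSeq_le h3 hd i (by omega)
      · intro k hk
        have := hlast k hk
        rw [← add_assoc]
        refine this.trans ?_
        push_cast
        refine div_le_div₀ (by positivity) ?_ hj (by linarith)
        have := Nat.cast_nonneg (α := ℝ) n
        have := Nat.cast_nonneg (α := ℝ) s
        linarith
    · refine ⟨?_, ?_, ?_⟩
      · rw [P.Y_ext hi]; exact (P.Her_iter h1 i).1
      · intro l hl; exact P.extSeq_le h3 hd l (by omega)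
      · intro k hk
        rw [P.ct_ext hi]
        have a1 := h4 k hk
        have e : ct ε k n + P.cnt (P.Y y0 ε n) k i - P.p k * ((n + i : ℕ) : ℝ)
            = (ct ε k n - P.p k * n) + (P.cnt (P.Y y0 ε n) k i - P.p k * i) := by
          push_cast; ring
        rw [e]
        have b1 := abs_add_le (ct ε k n - P.p k * n) (P.cnt (P.Y y0 ε n) k i - P.p k * i)
        rcases le_total (P.LL j) i with hli | hli
        · have a2 := h2 i hli k hk
          have b2 : 3 * (n : ℝ) / (j + 1) + (i : ℝ) / (j + 1) ≤ 4 * ((n + i : ℕ) : ℝ) / (j + 1) := by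
            rw [← add_div]
            refine div_le_div_of_nonneg_right ?_ hj.le
            push_cast
            have := Nat.cast_nonneg (α := ℝ) n
            have := Nat.cast_nonneg (α := ℝ) i
            linarith
          linarith
        · have a2 := P.abs_cnt_sub_le (P.Y y0 ε n) k i
          have c1 : (i : ℝ) ≤ (n : ℝ) / (j + 1) := by
            rw [le_div_iff₀ hj]
            have c2 : (j + 1) * i ≤ n := (Nat.mul_le_mul_left _ hli).trans h5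
            have c3 : (((j + 1) * i : ℕ) : ℝ) ≤ n := by exact_mod_cast c2
            push_cast at c3
            linarith
          have b2 : 3 * (n : ℝ) / (j + 1) + (n : ℝ) / (j + 1) ≤ 4 * ((n + i : ℕ) : ℝ) / (j + 1) := by
            rw [← add_div]
            refine div_le_div_of_nonneg_right ?_ hj.le
            push_cast
            have := Nat.cast_nonneg (α := ℝ) i
            linarith
          linarith

lemma extend {y0 : ℝ} (j n : ℕ) (ε : ℕ → ℕ) (hR : P.Rn y0 j n ε) :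
    ∃ n', n < n' ∧ ∃ ε0 ε1 : ℕ → ℕ, P.Rn y0 (j + 1) n' ε0 ∧ P.Rn y0 (j + 1) n' ε1 ∧
      (∀ i < n, ε0 i = ε i) ∧ (∀ i < n, ε1 i = ε i) ∧ (∃ i < n', ε0 i ≠ ε1 i) ∧
      ∀ t, n ≤ t → t ≤ n' → P.V y0 j t ε0 ∧ P.V y0 j t ε1 := by
  have hj : (0 : ℝ) < (j : ℝ) + 1 := by positivity
  have hδ : 0 < 3 / ((j : ℝ) + 2) - 1 / (j + 1) := by
    have hj2 : (0 : ℝ) < (j : ℝ) + 2 := by positivity
    rw [sub_pos, div_lt_div_iff₀ hj hj2]
    linarith [Nat.cast_nonneg (α := ℝ) j]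
  obtain ⟨B, hB⟩ := exists_nat_ge ((3 * (n : ℝ) / (j + 1) + 1) / (3 / (j + 2) - 1 / (j + 1)))
  obtain ⟨s, hs, hz⟩ := P.visit hR.1 j (max B (max (P.LL j) ((j + 2) * P.LL (j + 1))))
  have hs0 : P.LL j ≤ s := le_trans (le_trans (le_max_left _ _) (le_max_right _ _)) hs
  have hs1 : (j + 2) * P.LL (j + 1) ≤ s :=
    le_trans (le_trans (le_max_right _ _) (le_max_right _ _)) hs
  have hs2 : (3 * (n : ℝ) / (j + 1) + 1) ≤ s * (3 / (j + 2) - 1 / (j + 1)) := by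
    have : (B : ℝ) ≤ s := by exact_mod_cast le_trans (le_max_left _ _) hs
    rw [← div_le_iff₀ hδ]
    exact hB.trans this
  set z := P.Sh^[s] (P.Y y0 ε n) with hzdef
  have hzH : z ∈ P.Her P.T1 := P.Her_iter hR.1 s
  obtain ⟨hW, hU0, hU1⟩ := hz
  obtain ⟨s1, s2⟩ := P.step_Her hzH hW
  have hkpos : 1 ≤ P.kh z := hW.2.2.1
  have e0 : P.β * z + P.α - (P.kh z : ℝ) = P.S z := by
    rw [← P.Sh_unit hW.1 hW.2.1]; rfl
  have e1 : P.β * z + P.α - ((P.kh z - 1 : ℕ) : ℝ) = P.S z + 1 := by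
    rw [Nat.cast_sub hkpos, ← e0]; push_cast; ring
  have A := P.phase hR (P.kh_le z) hs0 hs1 hs2 (by rw [← hzdef, e0]; exact s1)
    (by rw [← hzdef, e0]; exact hU0)
  have B' := P.phase hR (d := P.kh z - 1) ((Nat.sub_le _ _).trans (P.kh_le z)) hs0 hs1 hs2
    (by rw [← hzdef, e1]; exact s2) (by rw [← hzdef, e1]; exact hU1)
  refine ⟨n + s + 1, by omega, _, _, A.1, B'.1, fun i hi => P.extSeq_lt hi,
    fun i hi => P.extSeq_lt hi, ⟨n + s, by omega, ?_⟩, fun t h1 h2 => ⟨A.2 t h1 h2, B'.2 t h1 h2⟩⟩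
  rw [P.extSeq_last, P.extSeq_last]
  omega

/-- continuum many sequences -/
theorem many {y0 : ℝ} (hy : y0 ∈ P.Her P.T1) :
    ∃ f : (ℕ → Bool) → (ℕ → ℕ), Function.Injective f ∧ ∀ σ,
      (∀ t, P.Y y0 (f σ) t ∈ P.Int0) ∧ (∀ i, f σ i ≤ P.m) ∧
      ∀ k ≤ P.m, Tendsto (fun t : ℕ => ct (f σ) k t / t) atTop (𝓝 (P.p k)) := by
  have root : P.Rn y0 0 0 (fun _ => 0) := by
    refine ⟨hy, P.UG_zero _, fun i hi => by omega, fun k _ => ?_, ?_⟩
    · simp [ct]
    · simp [LL]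
  obtain ⟨f, hf, hν⟩ := tree (P.Rn y0) (P.V y0) (P.V_congr y0) (fun j n ε h => P.extend j n ε h)
    (fun _ => 0) root
  refine ⟨f, hf, fun σ => ?_⟩
  obtain ⟨ν, hmono, h0, hV⟩ := hν σ
  have loc : ∀ t, ∃ j, ν j ≤ t ∧ t ≤ ν (j + 1) := by
    intro t
    have hex : ∃ j, t < ν (j + 1) := ⟨t, lt_of_lt_of_le (Nat.lt_succ_self t) (hmono.id_le (t + 1))⟩
    classical
    refine ⟨Nat.find hex, ?_, (Nat.find_spec hex).le⟩
    rcases Nat.eq_zero_or_pos (Nat.find hex) with h | h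
    · rw [h, h0]; exact Nat.zero_le _
    · have := Nat.find_min hex (m := Nat.find hex - 1) (by omega)
      have e : Nat.find hex - 1 + 1 = Nat.find hex := by omega
      rw [e] at this
      exact not_lt.1 this
  refine ⟨?_, ?_, ?_⟩
  · intro t
    obtain ⟨j, h1, h2⟩ := loc t
    exact (hV j t h1 h2).1
  · intro i
    obtain ⟨j, h1, h2⟩ := loc (i + 1)
    exact (hV j (i + 1) h1 h2).2.1 i (by omega)
  · intro k hk
    rw [Metric.tendsto_atTop]
    intro e he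
    obtain ⟨J, hJ⟩ := exists_nat_gt (4 / e)
    refine ⟨ν J + 1, fun t ht => ?_⟩
    obtain ⟨j, h1, h2⟩ := loc t
    have hjJ : J ≤ j := by
      by_contra hcon
      push Not at hcon
      have : ν (j + 1) ≤ ν J := hmono.monotone (by omega)
      omega
    have h3 := (hV j t h1 h2).2.2 k hk
    have htpos : (0 : ℝ) < t := by
      have : 0 < t := by omega
      exact_mod_cast this
    have hj : (0 : ℝ) < (j : ℝ) + 1 := by positivity
    rw [Real.dist_eq]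
    have e1 : ct (f σ) k t / t - P.p k = (ct (f σ) k t - P.p k * t) / t := by
      field_simp
    rw [e1, abs_div, abs_of_pos htpos, div_lt_iff₀ htpos]
    refine lt_of_le_of_lt h3 ?_
    have h4 : 4 * (t : ℝ) / (j + 1) = (4 / (j + 1)) * t := by ring
    rw [h4]
    refine mul_lt_mul_of_pos_right ?_ htpos
    rw [div_lt_iff₀ hj]
    rw [div_lt_iff₀ he] at hJ
    have h5 : (J : ℝ) ≤ j := by exact_mod_cast hjJ
    nlinarith

/-- the finite sums -/
lemma psum_eq (y0 : ℝ) (ε : ℕ → ℕ) (t : ℕ) :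
    ∑ i ∈ Finset.range t, (ε i : ℝ) / P.β ^ (i + 1)
      = (y0 + P.lo) - (P.Y y0 ε t + P.lo) / P.β ^ t := by
  induction t with
  | zero => simp [Y]
  | succ t ih =>
    rw [Finset.sum_range_succ, ih, Y]
    have h1 := P.β_pos.ne'
    have h2 := P.mul_lo
    have h3 : P.Y y0 ε t + P.lo = (P.β * P.Y y0 ε t + (P.α + P.lo)) / P.β := by
      rw [← h2]; field_simp
    rw [h3, pow_succ]
    field_simp
    ring

lemma hasSum_exp {y0 : ℝ} {ε : ℕ → ℕ} (h : ∀ t, P.Y y0 ε t ∈ P.Int0) :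
    HasSum (fun i => (ε i : ℝ) / P.β ^ (i + 1)) (y0 + P.lo) := by
  rw [hasSum_iff_tendsto_nat_of_nonneg (fun i => div_nonneg (Nat.cast_nonneg _)
    (pow_nonneg P.β_pos.le _))]
  simp_rw [P.psum_eq y0 ε]
  have h1 : Tendsto (fun t : ℕ => (P.Y y0 ε t + P.lo) / P.β ^ t) atTop (𝓝 0) := by
    have h2 : Tendsto (fun t : ℕ => (1 + 2 * P.lo) * P.q ^ t) atTop (𝓝 0) := by
      have := (tendsto_pow_atTop_nhds_zero_of_lt_one P.q_pos.le P.q_lt_one).const_mul (1 + 2 * P.lo)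
      simpa using this
    refine squeeze_zero (fun t => ?_) (fun t => ?_) h2
    · exact div_nonneg (by linarith [(h t).1]) (pow_nonneg P.β_pos.le _)
    · rw [div_eq_mul_inv, ← inv_pow]
      exact mul_le_mul_of_nonneg_right (by linarith [(h t).2]) (pow_nonneg P.q_pos.le _)
  have := (tendsto_const_nhds (x := y0 + P.lo)).sub h1
  simpa using this

end Par

end Pool.Agent.R266.BE
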